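import Pool.Agent.Helper52.MA.Defs
import Pool.Agent.Helper32.HB.NmB

/-!
# Martin's Axiom in a countable transitive model: definitions

`MASentence L lt 𝒮 𝒯` is Martin's Axiom for `ℵ₁` dense sets and for preorders on the linear order
`L` (of type `ω₁`), for the sets in `𝒮` and the binary relations in `𝒯`.
-/

set_option autoImplicit false
set_option linter.unusedSectionVars false

namespace Pool.Agent.Helper52.MA

open Set Pool.Agent.Helper33.HM Pool.Agent.Helper33.HMG Pool.Agent.Helper32.HB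

universe u v

/-- Martin's Axiom for preorders `R` on `L` and dense sets `D a`, `a ∈ L`; `𝒮` is the collection of
the subsets of `L` and `𝒯` the collection of the binary relations on `L` which are considered. If
every antichain of the preorder is bounded in `L`, and every `D a` is dense, then there is a filter
which meets all `D a`. -/
def MASentence (L : Type v) (lt : L → L → Prop) (𝒮 : Set (Set L)) (𝒯 : Set (L → L → Prop)) : Prop :=
  ∀ R ∈ 𝒯, ∀ D ∈ 𝒯,
    (∀ x, R x x) → (∀ x y z, R x y → R y z → R x z) →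
    (∀ A ∈ 𝒮, (∀ x ∈ A, ∀ y ∈ A, x ≠ y → ¬ ∃ z, R z x ∧ R z y) → ∃ b, ∀ x ∈ A, lt x b) →
    (∀ a x, ∃ y, R y x ∧ D a y) →
    ∃ G ∈ 𝒮, (∀ x ∈ G, ∀ y, R x y → y ∈ G) ∧ (∀ x ∈ G, ∀ y ∈ G, ∃ z ∈ G, R z x ∧ R z y) ∧
      ∀ a, ∃ x ∈ G, D a x

/-- `x` is countable in `M`: some element `f` of `M` is (as a set of pairs) a function which maps a
part of `ω` onto a set containing `x`. -/
def CountableIn (M : Set ZFSet.{0}) (x : ZFSet.{0}) : Prop :=
  ∃ f ∈ M, (∀ n y z, ZFSet.pair n y ∈ f → ZFSet.pair n z ∈ f → y = z) ∧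
    ∀ y ∈ x, ∃ n ∈ ZFSet.omega, ZFSet.pair n y ∈ f

/-- `w` is the first uncountable ordinal of `M`: a transitive set of transitive sets which is not
countable in `M` and whose elements are countable in `M`. -/
structure IsOmega1 (M : Set ZFSet.{0}) (w : ZFSet.{0}) : Prop where
  trans : ∀ x ∈ w, ∀ y ∈ x, y ∈ w
  trans' : ∀ x ∈ w, ∀ y ∈ x, ∀ z ∈ y, z ∈ x
  uncountable : ¬ CountableIn M w
  countable : ∀ x ∈ w, CountableIn M x

/-- The elements of `w`. -/
def El (w : ZFSet.{0}) : Type 1 := {x : ZFSet.{0} // x ∈ w}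

/-- The subsets of `w` which belong to `M`. -/
def setsM (M : Set ZFSet.{0}) (w : ZFSet.{0}) : Set (Set (El w)) :=
  {A | ∃ a ∈ M, ∀ x : El w, x ∈ A ↔ x.1 ∈ a}

/-- The binary relations on `w` which belong to `M` (as sets of pairs). -/
def relsM (M : Set ZFSet.{0}) (w : ZFSet.{0}) : Set (El w → El w → Prop) :=
  {R | ∃ r ∈ M, ∀ x y : El w, R x y ↔ ZFSet.pair x.1 y.1 ∈ r}

/-- Martin's Axiom for `ℵ₁` dense sets holds in the transitive set `M`. -/
def MAModel (M : Set ZFSet.{0}) : Prop :=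
  ∃ w ∈ M, IsOmega1 M w ∧
    MASentence (El w) (fun x y => x.1 ∈ y.1) (setsM M w) (relsM M w)

/-! ### Names -/

section Names

variable {P : Type u} [Preorder P] [OrderTop P]

/-- The name of the pair. -/
def pairN (σ τ : Nm P) : Nm P := upairN (upairN σ σ) (upairN σ τ)

/-- The name of the natural number `n`. -/
def numN (n : ℕ) : Nm P := chk (PSet.ofNat n)

variable {Ω : Type} [LinearOrder Ω] [WellFoundedLT Ω]

/-- The name of the ordinal `x`. -/
noncomputable def on : Ω → Nm P :=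
  (wellFounded_lt (α := Ω)).fix fun x IH =>
    .mk (ULift.{u} {y : Ω // y < x}) (fun y => IH y.down.1 y.down.2) (fun _ => ⊤)

variable (Ω) in
/-- The name of the set of all ordinals `x ∈ Ω`. -/
noncomputable def wN : Nm P := .mk (ULift.{u} Ω) (fun x => on x.down) (fun _ => ⊤)

/-- The name of the set of ordinals with the values `A`. -/
noncomputable def setN (A : Ω → RO P) : Nm P :=
  .mk {z : Ω × P // z.2 ∈ A z.1} (fun z => on z.1.1) (fun z => z.1.2)

/-- The name of the function `n ↦ e n`. -/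
noncomputable def enumN (e : ℕ → Ω) : Nm P :=
  .mk (ULift.{u} ℕ) (fun n => pairN (numN n.down) (on (e n.down))) (fun _ => ⊤)

/-- The values of `x ∈ α`. -/
noncomputable def st (α : Nm P) (x : Ω) : RO P := memv (on x) α

/-- The values of `(x, y) ∈ ρ`. -/
noncomputable def rel (ρ : Nm P) (x y : Ω) : RO P := memv (pairN (on x) (on y)) ρ

/-- The values of `(σ, x) ∈ φ`. -/
noncomputable def fnc (φ σ : Nm P) (x : Ω) : RO P := memv (pairN σ (on x)) φ

/-- Requirements: decisions. -/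
inductive DQ : Type
  | refl | trans | ccc | den | fn | sur
  deriving Countable

/-- Requirements: witnesses. -/
inductive SQ : Type
  | refl | tr1 | tr2 | tr3 | bdd | den1 | den2 | dir | meet | fn1 | fn2 | sur
  deriving Countable

/-- Requirements. -/
inductive RQ : Type
  | w | up | pair | snd | ch | fil | anti | enum | nat
  | dec (k : DQ)
  | sup (k : SQ)
  deriving Countable

variable (Ω) in
/-- The truth values to be decided. -/
noncomputable def dcd : DQ → (ℕ → Nm P) → RO P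
  | .refl, v => ⨅ x : Ω, rel (v 0) x x
  | .trans, v => ⨅ x : Ω, ⨅ y : Ω, ⨅ z : Ω, (rel (v 0) x y ⊓ rel (v 0) y z) ⇨ rel (v 0) x z
  | .ccc, v => cccV Set.univ (rel (Ω := Ω) (v 0))
  | .den, v => denV (rel (Ω := Ω) (v 0)) (rel (v 1))
  | .fn, v => ⨅ n : ℕ, ⨅ x : Ω, ⨅ y : Ω, ⨅ _ : x ≠ y, (fnc (v 0) (numN n) x ⊓
      fnc (v 0) (numN n) y)ᶜ
  | .sur, v => ⨅ x : Ω, ⨆ n : ℕ, fnc (v 0) (numN n) x

/-- The families of truth values for which witnesses are needed. -/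
noncomputable def fam : SQ → (ℕ → Nm P) → Ω → RO P
  | .refl, v, x => (rel (v 0) x x)ᶜ
  | .tr1, v, x => ⨆ y : Ω, ⨆ z : Ω, (rel (v 0) x y ⊓ rel (v 0) y z) ⊓ (rel (v 0) x z)ᶜ
  | .tr2, v, y => ⨆ z : Ω, (fnc (v 0) (v 1) y ⊓ rel (v 0) y z) ⊓ (fnc (v 0) (v 1) z)ᶜ
  | .tr3, v, z => (memv (pairN (v 1) (v 2)) (v 0) ⊓ fnc (v 0) (v 2) z) ⊓ (fnc (v 0) (v 1) z)ᶜ
  | .bdd, v, x => ⨆ _ : ∀ b : Ω, v 1 = on b → b ≤ x, st (v 0) x
  | .den1, v, a => ⨆ x : Ω, ⨅ y : Ω, (rel (v 0) y x ⊓ rel (v 1) a y)ᶜ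
  | .den2, v, x => ⨅ y : Ω, (rel (v 0) y x ⊓ fnc (v 1) (v 2) y)ᶜ
  | .dir, v, z => st (v 1) z ⊓ (memv (pairN (on z) (v 2)) (v 0) ⊓ memv (pairN (on z) (v 3)) (v 0))
  | .meet, v, x => st (v 0) x ⊓ fnc (v 1) (v 2) x
  | .fn1, v, x => ⨆ y : Ω, ⨆ _ : x ≠ y, fnc (v 0) (v 1) x ⊓ fnc (v 0) (v 1) y
  | .fn2, v, y => ⨆ _ : v 2 ≠ on y, memv (pairN (v 1) (v 2)) (v 0) ⊓ fnc (v 0) (v 1) y
  | .sur, v, x => ⨅ n : ℕ, (fnc (v 0) (numN n) x)ᶜ

variable (Ω) in
/-- The requirements on the generic sequence. -/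
def WQ : RQ → (ℕ → Nm P) → P → Nm P → Prop
  | .w, _, _, x => x = wN Ω
  | .up, v, _, x => x = upairN (v 0) (v 1)
  | .pair, v, _, x => x = pairN (v 0) (v 1)
  | .snd, v, _, x => ∃ σ, v 0 = pairN σ x
  | .ch, v, _, x => x = chN (v 0)
  | .fil, v, p, x => ∃ G : Ω → RO P, x = setN G ∧ p ∈ filtV (rel (v 0)) (rel (v 1)) G
  | .anti, v, p, x => ∃ A : Ω → RO P, x = setN A ∧ p ∈ antiV (rel (v 0)) A ∧ p ∈ (bddV A)ᶜ
  | .enum, v, _, x => ∃ b : Ω, v 0 = on b ∧ ∃ e : ℕ → Ω, (∀ y, y < b → ∃ n, e n = y) ∧ x = enumN e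
  | .nat, v, p, x => ∃ n : ℕ, x = numN n ∧
      p ∈ ⨆ y : Ω, ⨆ z : Ω, ⨆ _ : y ≠ z, fnc (v 0) x y ⊓ fnc (v 0) x z
  | .dec k, v, p, _ => p ∈ dcd Ω k v
  | .sup k, v, p, x => ∃ z : Ω, x = on z ∧ p ∈ fam k v z

variable {R : Type} {W : R → (ℕ → Nm P) → P → Nm P → Prop}

/-- The truth value `U` is true for the generic sequence `g`. -/
def Tr (g : Gen W) (U : RO P) : Prop := ∃ k, g.pc k ∈ U

variable (Ω) in
/-- The generic sequence `g` meets the requirements. -/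
def Meets (g : Gen W) : Prop :=
  ∀ (r : RQ) (t : List (Nm P)), (∀ x ∈ t, x ∈ g.N) →
    ∃ k, (∃ x ∈ g.N, WQ Ω r (asg t) (g.pc k) x) ∨ ∀ q, q ≤ g.pc k → ∀ x, ¬ WQ Ω r (asg t) q x

end Names

/-- It is forced that there is no function from `ℕ` onto `Ω`. -/
def NoColl (P : Type u) [Preorder P] (Ω : Type) : Prop :=
  ∀ F : ℕ → Ω → RO P,
    (⨅ n, ⨅ x, ⨅ y, ⨅ _ : x ≠ y, (F n x ⊓ F n y)ᶜ) ⊓ (⨅ x, ⨆ n, F n x) = ⊥

/-- Every set of pairwise incompatible conditions is countable. -/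
def PCCC (P : Type u) [Preorder P] : Prop :=
  ∀ A : Set P, (∀ p ∈ A, ∀ q ∈ A, p ≠ q → ¬ ∃ r : P, r ≤ p ∧ r ≤ q) → A.Countable

/-- Martin's Axiom for `ℵ₁` dense sets. -/
def MA1 : Prop :=
  ∀ (P : Type) [Preorder P] [Nonempty P], PCCC P →
    ∀ (ι : Type) (D : ι → Set P), Cardinal.mk ι ≤ Cardinal.aleph 1 → (∀ i p, ∃ q ∈ D i, q ≤ p) →
      ∃ G : Set P, G.Nonempty ∧ (∀ p ∈ G, ∀ q, p ≤ q → q ∈ G) ∧
        (∀ p ∈ G, ∀ q ∈ G, ∃ r ∈ G, r ≤ p ∧ r ≤ q) ∧ ∀ i, (G ∩ D i).Nonempty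

/-! ### The Continuum Hypothesis -/

/-- The Continuum Hypothesis holds in `M`: some element of `M` is a function which maps the first
uncountable ordinal of `M` onto the set of all subsets of `ω` which belong to `M`. -/
def CHModel (M : Set ZFSet.{0}) : Prop :=
  ∃ w ∈ M, IsOmega1 M w ∧ ∃ f ∈ M, (∀ n y z, ZFSet.pair n y ∈ f → ZFSet.pair n z ∈ f → y = z) ∧
    ∀ x ∈ M, x ⊆ ZFSet.omega → ∃ a ∈ w, ZFSet.pair a x ∈ f

/-- Countable partial functions from `Ω` to the set of all subsets of `ℕ`. -/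
@[ext] structure PH (Ω : Type) where
  f : Ω → Option (Set ℕ)
  cnt : {x | f x ≠ none}.Countable

instance (Ω : Type) : PartialOrder (PH Ω) where
  le p q := ∀ x a, q.f x = some a → p.f x = some a
  le_refl _ _ _ h := h
  le_trans _ _ _ h1 h2 x a h := h1 x a (h2 x a h)
  le_antisymm p q h1 h2 := by
    apply PH.ext
    funext x
    cases hq : q.f x with
    | some a => exact h1 x a hq
    | none =>
      cases hp : p.f x with
      | none => rfl
      | some a => rw [h2 x a hp] at hq; exact hq.symm ▸ rfl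

instance (Ω : Type) : OrderTop (PH Ω) where
  top := ⟨fun _ => none, by simp⟩
  le_top _ _ _ h := absurd h (by simp)

section CHNames

variable {Ω : Type} [LinearOrder Ω] [WellFoundedLT Ω]

/-- The name of the set `a` of natural numbers. -/
noncomputable def rlN (a : Set ℕ) : Nm (PH Ω) :=
  .mk {n : ℕ // n ∈ a} (fun n => numN n.1) (fun _ => ⊤)

variable (Ω) in
/-- The name of the generic function. -/
noncomputable def fN : Nm (PH Ω) :=
  .mk {z : Ω × Set ℕ × PH Ω // z.2.2.f z.1 = some z.2.1} (fun z => pairN (on z.1.1) (rlN z.1.2.1))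
    (fun z => z.1.2.2)

/-- Requirements for the Continuum Hypothesis. -/
inductive RH : Type
  | f | fst | real | place
  deriving Countable

variable (Ω) in
/-- The requirements for the Continuum Hypothesis. -/
def WH : RH → (ℕ → Nm (PH Ω)) → PH Ω → Nm (PH Ω) → Prop
  | .f, _, _, x => x = fN Ω
  | .fst, v, _, x => ∃ τ, v 0 = pairN x τ
  | .real, v, p, x => ∃ a : Set ℕ, x = rlN a ∧
      ∀ n, (n ∈ a → p ∈ memv (numN n) (v 0)) ∧ (n ∉ a → p ∈ (memv (numN n) (v 0))ᶜ)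
  | .place, v, p, x => ∃ a : Set ℕ, v 0 = rlN a ∧ ∃ z : Ω, x = on z ∧ p.f z = some a

end CHNames

end Pool.Agent.Helper52.MA
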