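import Pool.Agent.Helper82.MA.Om
import Pool.Agent.Helper90.MA.NoCollH
import Pool.Agent.Helper83.MA.RealH
import Pool.Agent.Helper32.HB.Nam

/-!
# MA-18: the Continuum Hypothesis in the model
-/

set_option autoImplicit false
set_option linter.unusedSectionVars false

namespace Pool.Agent.Helper52.MA

open Set Pool.Agent.Helper33.HM Pool.Agent.Helper33.HMG Pool.Agent.Helper32.HB

section CH

variable {Ω : Type} [LinearOrder Ω] [WellFoundedLT Ω]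

theorem ch_model {R : Type} {W : R → (ℕ → Nm (PH Ω)) → PH Ω → Nm (PH Ω) → Prop} (g : Gen W)
    (hg : Meets Ω g)
    (hr : ∀ (r : RH) (t : List (Nm (PH Ω))), (∀ x ∈ t, x ∈ g.N) →
      ∃ k, (∃ x ∈ g.N, WH Ω r (asg t) (g.pc k) x) ∨ ∀ q, q ≤ g.pc k → ∀ x, ¬ WH Ω r (asg t) q x)
    (hI : ∀ b : Ω, (Iio b).Countable) (hu : ¬ Countable Ω) : CHModel g.M := by
  have hf : fN Ω ∈ g.N := by
    obtain ⟨k, ⟨x, hx, h⟩ | h⟩ := hr .f [] (by simp)
    · have h' : x = fN Ω := h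
      rw [← h']; exact hx
    · exact absurd rfl (h _ le_rfl (fN Ω))
  have hfst : ∀ {σ τ : Nm (PH Ω)}, pairN σ τ ∈ g.N → σ ∈ g.N := by
    intro σ τ h
    obtain ⟨k, ⟨x, hx, h1⟩ | h1⟩ := hr .fst [pairN σ τ] (by simp [h])
    · obtain ⟨τ', h2⟩ := h1
      have h2' : pairN σ τ = pairN x τ' := h2
      rw [(pairN_injective h2').1]; exact hx
    · exact absurd ⟨τ, rfl⟩ (h1 _ le_rfl σ)
  have hmem : ∀ {x : ZFSet.{0}}, x ∈ g.val (fN Ω) ↔ ∃ (z : Ω) (a : Set ℕ), on z ∈ g.N ∧ rlN a ∈ g.N ∧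
      (∃ k, (g.pc k).f z = some a) ∧ x = ZFSet.pair (g.val (on z)) (g.val (rlN a)) := by
    intro x
    rw [fN, g.mem_val]
    constructor
    · rintro ⟨⟨⟨z, a, c⟩, hc⟩, h1, ⟨k, h2⟩, h3⟩
      have h1' : pairN (on z) (rlN a) ∈ g.N := h1
      have hz := hfst h1'
      have ha := snd_mem g hg h1'
      refine ⟨z, a, hz, ha, ⟨k, h2 z a hc⟩, ?_⟩
      rw [← h3, ← val_pairN' g hg hz ha]
      rfl
    · rintro ⟨z, a, hz, ha, ⟨k, hk⟩, rfl⟩
      refine ⟨⟨⟨z, a, g.pc k⟩, hk⟩, pairN_mem g hg hz ha, ⟨k, le_rfl⟩, ?_⟩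
      rw [← val_pairN' g hg hz ha]
      rfl
  refine ⟨g.val (wN Ω), ⟨_, wN_mem g hg, rfl⟩, isOmega1 g hg hI (noColl_PH hu), g.val (fN Ω),
    ⟨_, hf, rfl⟩, ?_, ?_⟩
  · intro n y z hy hz
    obtain ⟨z1, a1, h1, h2, ⟨k1, h3⟩, h4⟩ := hmem.1 hy
    obtain ⟨z2, a2, h5, h6, ⟨k2, h7⟩, h8⟩ := hmem.1 hz
    rw [ZFSet.pair_inj] at h4 h8
    have h9 : z1 = z2 := val_on_inj g h1 h5 (h4.1.symm.trans h8.1)
    subst h9
    have e1 := g.pc_le (le_max_left k1 k2) z1 a1 h3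
    have e2 := g.pc_le (le_max_right k1 k2) z1 a2 h7
    rw [e1] at e2
    have h10 : a1 = a2 := Option.some.inj e2
    subst h10
    rw [h4.2, h8.2]
  · rintro _ ⟨σ, hσ, rfl⟩ hsub
    obtain ⟨k, ⟨x, hx, a, rfl, h1⟩ | h1⟩ := hr .real [σ] (by simp [hσ])
    swap
    · exfalso
      obtain ⟨q, hq, a, ha⟩ := exists_real σ (g.pc k)
      exact h1 q hq (rlN a) ⟨a, rfl, ha⟩
    have hval : g.val σ = g.val (rlN a) := by
      ext z
      constructor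
      · intro hz
        obtain ⟨n, rfl⟩ := nam_mem_omega.1 (hsub hz)
        have hn : n ∈ a := by
          by_contra hn
          have h2 : Tr g (memv (numN n) σ)ᶜ := ⟨k, (h1 n).2 hn⟩
          apply tr_compl g h2
          refine (g.mem_iff (numN_mem g n) hσ).2 ?_
          have h3 : g.val (numN n) = Gen.nat n := g.val_num n
          rw [h3]; exact hz
        exact g.mem_val.2 ⟨⟨n, hn⟩, numN_mem g n, ⟨0, le_top⟩, g.val_num n⟩
      · intro hz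
        obtain ⟨⟨n, hn⟩, -, -, h3⟩ := g.mem_val.1 hz
        rw [← h3]
        exact (g.mem_iff (numN_mem g n) hσ).1 ⟨k, (h1 n).1 hn⟩
    obtain ⟨l, ⟨y, hy, a', h2, z, rfl, h3⟩ | h2⟩ := hr .place [rlN a] (by simpa using hx)
    swap
    · exfalso
      obtain ⟨q, hq, z, hz⟩ := exists_place hu a (g.pc l)
      exact h2 q hq (on z) ⟨a, rfl, z, rfl, hz⟩
    have h2' : (rlN a : Nm (PH Ω)) = rlN a' := h2
    refine ⟨g.val (on z), (mem_val_wN g).2 ⟨z, hy, rfl⟩, ?_⟩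
    rw [hval, h2']
    rw [h2'] at hx
    exact hmem.2 ⟨z, a', hy, hx, ⟨l, h3⟩, rfl⟩

end CH

end Pool.Agent.Helper52.MA
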