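import Pool.Agent.Helper33.HM.RO

/-!
# A finite support iteration which forces Martin's Axiom for `ℵ₁` dense sets: definitions

`Ω` is a linear order of type `ω₁`. Martin's Axiom is considered for preorders on `Ω`; their
antichains are bounded in `Ω` (equivalently, countable). A condition of the iteration is a finite
partial function from the well-order `I` to `Ω`; the order of the conditions is defined by
recursion: at the place `i` the value of `x ≤ y` is `okV i ⇨ Cv i x y`, where `Cv i` is the `i`-th
name for a relation on `Ω`, given by the code `code i`, and `okV i` is the value of: `Cv i` is a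
preorder with bounded antichains.
-/

set_option autoImplicit false

namespace Pool.Agent.Helper52.MA

open Set Pool.Agent.Helper33.HM

universe u

section Val

variable {B : Type u} [CompleteBooleanAlgebra B] {Ω : Type}

/-- The value of: `C` is a preorder. -/
def preV (C : Ω → Ω → B) : B := (⨅ x, C x x) ⊓ ⨅ x, ⨅ y, ⨅ z, (C x y ⊓ C y z) ⇨ C x z

/-- The value of: `x` and `y` are incompatible. -/
def incV (C : Ω → Ω → B) (x y : Ω) : B := ⨅ z, (C z x ⊓ C z y)ᶜ

/-- The value of: distinct members of `A` are incompatible. -/
def antiV (C : Ω → Ω → B) (A : Ω → B) : B := ⨅ x, ⨅ y, ⨅ _ : x ≠ y, (A x ⊓ A y) ⇨ incV C x y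

/-- The value of: every member of `Ω` has an element of `D a` below it, for every `a`. -/
def denV (C D : Ω → Ω → B) : B := ⨅ a, ⨅ x, ⨆ y, C y x ⊓ D a y

/-- The value of: `G` is a filter which meets all `D a`. -/
def filtV (C D : Ω → Ω → B) (G : Ω → B) : B :=
  (⨅ x, ⨅ y, (G x ⊓ C x y) ⇨ G y) ⊓ (⨅ x, ⨅ y, (G x ⊓ G y) ⇨ ⨆ z, G z ⊓ (C z x ⊓ C z y)) ⊓
    ⨅ a, ⨆ x, G x ⊓ D a x

variable [LinearOrder Ω]

/-- The value of: `A` is bounded. -/
def bddV (A : Ω → B) : B := ⨆ b, ⨅ x, ⨅ _ : b ≤ x, (A x)ᶜ

/-- The value of: all antichains which have a name with values in `S` are bounded. -/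
def cccV (S : Set B) (C : Ω → Ω → B) : B :=
  ⨅ A : Ω → B, ⨅ _ : (∀ x, A x ∈ S), antiV C A ⇨ bddV A

end Val

/-- Conditions: finite partial functions from `I` to `Ω`. -/
@[ext] structure Cond (I : Type u) (Ω : Type) where
  f : I → Option Ω
  fin : {i | f i ≠ none}.Finite

namespace Cond

variable {I : Type u} {Ω : Type}

/-- The empty condition. -/
def empty : Cond I Ω := ⟨fun _ => none, by simp⟩

variable [LinearOrder I]

/-- All places of `p` are less than `i`. -/
def lt (p : Cond I Ω) (i : I) : Prop := ∀ j, p.f j ≠ none → j < i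

/-- The restriction to the places less than `i`. -/
def res (p : Cond I Ω) (i : I) : Cond I Ω :=
  ⟨fun j => if j < i then p.f j else none, p.fin.subset fun j hj => by
    by_cases h : j < i
    · simpa [h] using hj
    · simp [h] at hj⟩

/-- The condition which agrees with `q` below `i` and with `p` from `i` on. -/
def glue (i : I) (q p : Cond I Ω) : Cond I Ω :=
  ⟨fun j => if j < i then q.f j else p.f j, (q.fin.union p.fin).subset fun j hj => by
    by_cases h : j < i
    · left; simpa [h] using hj
    · right; simpa [h] using hj⟩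

/-- The condition `p` with the value `x` at `i`. -/
def put (p : Cond I Ω) (i : I) (x : Ω) : Cond I Ω :=
  ⟨fun j => if j = i then some x else p.f j, (p.fin.insert i).subset fun j hj => by
    by_cases h : j = i
    · left; exact h
    · right; simpa [h] using hj⟩

end Cond

section Raw

variable {I : Type u} [LinearOrder I] {Ω : Type}

/-- The order of the conditions, for given sets `R i x y` of conditions forcing `x ≤ y` at `i`. -/
def leR (R : I → Ω → Ω → Set (Cond I Ω)) (p q : Cond I Ω) : Prop :=
  ∀ i x, q.f i = some x → ∃ y, p.f i = some y ∧ p.res i ∈ R i y x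

/-- `p` forces that the generic filter contains an element of `X`, for the conditions of
length `i`, ordered by `le`. -/
def hit (i : I) (le : Cond I Ω → Cond I Ω → Prop) (X : Set (Cond I Ω)) (p : Cond I Ω) : Prop :=
  ∀ q, q.lt i → le q p → ∃ r, r.lt i ∧ le r q ∧ ∃ a ∈ X, a.lt i ∧ le r a

variable [LinearOrder Ω]

/-- `p` forces that the relation coded by `C` is a preorder with bounded antichains. -/
structure IsOk (i : I) (le : Cond I Ω → Cond I Ω → Prop) (C : Ω → Ω → Set (Cond I Ω))
    (p : Cond I Ω) : Prop where
  refl : ∀ x, hit i le (C x x) p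
  trans : ∀ x y z q, q.lt i → le q p → hit i le (C x y) q → hit i le (C y z) q →
    hit i le (C x z) q
  ccc : ∀ A : Ω → Set (Cond I Ω), ∀ q, q.lt i → le q p →
    (∀ x y, x ≠ y → ∀ r, r.lt i → le r q → hit i le (A x) r → hit i le (A y) r →
      ∀ z s, s.lt i → le s r → hit i le (C z x) s → ¬ hit i le (C z y) s) →
    ∃ r, r.lt i ∧ le r q ∧ ∃ b, ∀ x, b ≤ x → ∀ s, s.lt i → le s r → ¬ hit i le (A x) s

/-- The conditions of length `i` which force `x ≤ y`. -/
def step (i : I) (le : Cond I Ω → Cond I Ω → Prop) (C : Ω → Ω → Set (Cond I Ω)) (x y : Ω) :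
    Set (Cond I Ω) :=
  {p | p.lt i ∧ ∀ q, q.lt i → le q p → IsOk i le C q → hit i le (C x y) q}

variable [WellFoundedLT I]

/-- The conditions which force `x ≤ y` at the place `i`. -/
noncomputable def R (code : I → Ω → Ω → Set (Cond I Ω)) : I → Ω → Ω → Set (Cond I Ω) :=
  (wellFounded_lt (α := I)).fix fun i IH =>
    step i (leR fun j x y => {p | ∀ h : j < i, p ∈ IH j h x y}) (code i)

end Raw

/-- The poset of conditions for the bookkeeping function `code`. -/
def PC {I : Type u} {Ω : Type} (_code : I → Ω → Ω → Set (Cond I Ω)) : Type u := Cond I Ω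

namespace PC

variable {I : Type u} {Ω : Type} {code : I → Ω → Ω → Set (Cond I Ω)}

/-- The condition as a finite function. -/
def c (p : PC code) : Cond I Ω := p

/-- A finite function as a condition. -/
def mk (p : Cond I Ω) : PC code := p

end PC

end Pool.Agent.Helper52.MA
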