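import Pool.Agent.Helper61.MA.Vals

/-!
# MA-13: Martin's Axiom holds in the model
-/

set_option autoImplicit false
set_option linter.unusedSectionVars false

namespace Pool.Agent.Helper52.MA

open Set Pool.Agent.Helper33.HM Pool.Agent.Helper33.HMG Pool.Agent.Helper32.HB

universe u

variable {P : Type u} [Preorder P] [OrderTop P] {Ω : Type} [LinearOrder Ω] [WellFoundedLT Ω]
variable {R : Type} {W : R → (ℕ → Nm P) → P → Nm P → Prop} (g : Gen W)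

theorem mam_himp {U V : RO P} (h : Tr g (U ⇨ V)) (hU : Tr g U) : Tr g V :=
  tr_mono g (by rw [inf_comm]; exact inf_himp_le) ((tr_inf g).2 ⟨h, hU⟩)

theorem mam_iInf {ι : Sort*} {f : ι → RO P} (h : Tr g (⨅ i, f i)) (i : ι) : Tr g (f i) :=
  tr_mono g (iInf_le f i) h

/-- The element of the model's `ω₁` given by `y`. -/
theorem mam_mem {y : Ω} (hy : on y ∈ g.N) : g.val (on y) ∈ g.val (wN Ω) :=
  (mem_val_wN g).2 ⟨y, hy, rfl⟩

/-- The element of the model's `ω₁` given by `y`. -/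
noncomputable def mam_e {y : Ω} (hy : on y ∈ g.N) : El (g.val (wN Ω)) := ⟨g.val (on y), mam_mem g hy⟩

theorem mam_surj (x : El (g.val (wN Ω))) : ∃ y : Ω, ∃ hy : on y ∈ g.N, mam_e g hy = x := by
  obtain ⟨y, hy, h⟩ := (mem_val_wN g).1 x.2
  exact ⟨y, hy, Subtype.ext h⟩

variable (hg : Meets Ω g)
include hg

section

variable {ρ δ : Nm P} (hρ : ρ ∈ g.N) (hδ : δ ∈ g.N)

include hρ in
theorem mam_refl (h : ∀ x : Ω, on x ∈ g.N → Tr g (rel ρ x x)) : Tr g (⨅ x : Ω, rel ρ x x) := by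
  rcases tr_dcd g hg .refl [ρ] (by simpa using hρ) with h1 | h1
  · exact h1
  · exfalso
    have h2 : Tr g (⨆ x : Ω, (rel ρ x x)ᶜ) := by
      rw [← compl_iInf]; exact h1
    obtain ⟨z, hz, h3⟩ := tr_fam g hg (Ω := Ω) .refl [ρ] (by simpa using hρ) h2
    exact tr_compl g h3 (h z hz)

include hρ in
theorem mam_trans (h : ∀ x y z : Ω, on x ∈ g.N → on y ∈ g.N → on z ∈ g.N → Tr g (rel ρ x y) →
    Tr g (rel ρ y z) → Tr g (rel ρ x z)) :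
    Tr g (⨅ x : Ω, ⨅ y : Ω, ⨅ z : Ω, (rel ρ x y ⊓ rel ρ y z) ⇨ rel ρ x z) := by
  rcases tr_dcd g hg .trans [ρ] (by simpa using hρ) with h1 | h1
  · exact h1
  · exfalso
    have h2 : Tr g (⨆ x : Ω, ⨆ y : Ω, ⨆ z : Ω, (rel ρ x y ⊓ rel ρ y z) ⊓ (rel ρ x z)ᶜ) := by
      have h3 : (⨆ x : Ω, ⨆ y : Ω, ⨆ z : Ω, (rel ρ x y ⊓ rel ρ y z) ⊓ (rel ρ x z)ᶜ) =
          (⨅ x : Ω, ⨅ y : Ω, ⨅ z : Ω, (rel ρ x y ⊓ rel ρ y z) ⇨ rel ρ x z)ᶜ := by
        simp only [compl_iInf, himp_eq, compl_sup, compl_compl]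
        simp only [inf_comm]
      rw [h3]; exact h1
    obtain ⟨x, hx, h3⟩ := tr_fam g hg (Ω := Ω) .tr1 [ρ] (by simpa using hρ) h2
    obtain ⟨y, hy, h4⟩ := tr_fam g hg (Ω := Ω) .tr2 [ρ, on x] (by simp [hρ, hx]) h3
    obtain ⟨z, hz, h5⟩ := tr_fam g hg (Ω := Ω) .tr3 [ρ, on x, on y] (by simp [hρ, hx, hy]) h4
    change Tr g ((rel ρ x y ⊓ rel ρ y z) ⊓ (rel ρ x z)ᶜ) at h5
    rw [tr_inf, tr_inf] at h5
    exact tr_compl g h5.2 (h x y z hx hy hz h5.1.1 h5.1.2)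

include hρ in
theorem mam_ccc (h : ∀ A : Ω → RO P, setN A ∈ g.N →
      (∀ x y z : Ω, on x ∈ g.N → on y ∈ g.N → on z ∈ g.N → x ≠ y → Tr g (A x) → Tr g (A y) →
        Tr g (rel ρ z x) → ¬ Tr g (rel ρ z y)) →
      ∃ b : Ω, on b ∈ g.N ∧ ∀ x : Ω, on x ∈ g.N → Tr g (A x) → x < b) :
    Tr g (cccV Set.univ (rel (Ω := Ω) ρ)) := by
  rcases tr_dcd g hg .ccc [ρ] (by simpa using hρ) with h1 | h1
  · exact h1
  · exfalso
    obtain ⟨A, hA, h2, h3⟩ := exists_anti g hg hρ h1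
    obtain ⟨b, hb, h4⟩ := h A hA (by
      intro x y z hx hy hz hxy hAx hAy h5 h6
      have h7 : Tr g (incV (rel ρ) x y) := by
        have := mam_iInf g (mam_iInf g (mam_iInf g h2 x) y) hxy
        exact mam_himp g this ((tr_inf g).2 ⟨hAx, hAy⟩)
      exact tr_compl g (mam_iInf g h7 z) ((tr_inf g).2 ⟨h5, h6⟩))
    have h5 : Tr g (⨆ x : Ω, fam .bdd (asg [setN A, on b]) x) := by
      refine tr_mono g ?_ h3
      have h6 : (bddV A)ᶜ ≤ (⨅ x, ⨅ _ : b ≤ x, (A x)ᶜ)ᶜ :=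
        compl_le_compl (le_iSup (fun b => ⨅ x, ⨅ _ : b ≤ x, (A x)ᶜ) b)
      refine h6.trans ?_
      rw [compl_iInf]
      refine iSup_mono fun x => ?_
      rw [compl_iInf]
      refine iSup_le fun hbx => ?_
      rw [compl_compl]
      have h7 : ∀ c : Ω, (on b : Nm P) = on c → c ≤ x := fun c hc => by
        rw [← on_injective hc]; exact hbx
      exact le_trans (by rw [st_setN]) (le_iSup (fun _ : ∀ c : Ω, (on b : Nm P) = on c → c ≤ x =>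
        st (setN A) x) h7)
    obtain ⟨x, hx, h6⟩ := tr_fam g hg (Ω := Ω) .bdd [setN A, on b] (by simp [hA, hb]) h5
    change Tr g (⨆ _ : ∀ c : Ω, (on b : Nm P) = on c → c ≤ x, st (setN A) x) at h6
    by_cases h7 : ∀ c : Ω, (on b : Nm P) = on c → c ≤ x
    · rw [iSup_pos h7, st_setN] at h6
      exact absurd (h4 x hx h6) (not_lt.2 (h7 b rfl))
    · rw [iSup_neg h7] at h6
      exact not_tr_bot g h6

include hρ hδ in
theorem mam_den (h : ∀ a x : Ω, on a ∈ g.N → on x ∈ g.N →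
      ∃ y : Ω, on y ∈ g.N ∧ Tr g (rel ρ y x) ∧ Tr g (rel δ a y)) :
    Tr g (denV (rel (Ω := Ω) ρ) (rel δ)) := by
  rcases tr_dcd g hg .den [ρ, δ] (by simp [hρ, hδ]) with h1 | h1
  · exact h1
  · exfalso
    have h2 : Tr g (⨆ a : Ω, ⨆ x : Ω, ⨅ y : Ω, (rel ρ y x ⊓ rel δ a y)ᶜ) := by
      have h3 : (⨆ a : Ω, ⨆ x : Ω, ⨅ y : Ω, (rel ρ y x ⊓ rel δ a y)ᶜ) =
          (denV (rel (Ω := Ω) ρ) (rel δ))ᶜ := by
        simp only [denV, compl_iInf, compl_iSup]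
      rw [h3]; exact h1
    obtain ⟨a, ha, h3⟩ := tr_fam g hg (Ω := Ω) .den1 [ρ, δ] (by simp [hρ, hδ]) h2
    obtain ⟨x, hx, h4⟩ := tr_fam g hg (Ω := Ω) .den2 [ρ, δ, on a] (by simp [hρ, hδ, ha]) h3
    obtain ⟨y, hy, h5, h6⟩ := h a x ha hx
    exact tr_compl g (mam_iInf g h4 y) ((tr_inf g).2 ⟨h5, h6⟩)

end

theorem ma_sentence (hMA : ∀ C D : Ω → Ω → RO P,
      preV C ⊓ cccV Set.univ C ⊓ denV C D ≤ ⨆ G : Ω → RO P, filtV C D G) :
    MASentence (El (g.val (wN Ω))) (fun x y => x.1 ∈ y.1) (setsM g.M (g.val (wN Ω)))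
      (relsM g.M (g.val (wN Ω))) := by
  rintro C ⟨_, ⟨ρ, hρ, rfl⟩, hC⟩ D ⟨_, ⟨δ, hδ, rfl⟩, hD⟩ hrefl htrans hccc hden
  have rC : ∀ {x y : Ω} (hx : on x ∈ g.N) (hy : on y ∈ g.N),
      Tr g (rel ρ x y) ↔ C (mam_e g hx) (mam_e g hy) := fun hx hy => by
    rw [rel_iff g hg hρ hx hy, hC]; rfl
  have rD : ∀ {x y : Ω} (hx : on x ∈ g.N) (hy : on y ∈ g.N),
      Tr g (rel δ x y) ↔ D (mam_e g hx) (mam_e g hy) := fun hx hy => by
    rw [rel_iff g hg hδ hx hy, hD]; rfl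
  have rS : ∀ {A : Ω → RO P} (_ : setN A ∈ g.N) {x : Ω} (hx : on x ∈ g.N),
      Tr g (A x) ↔ (mam_e g hx).1 ∈ g.val (setN A) := fun {A} hA {x} hx => by
    have h0 := st_iff g hA hx
    rw [st_setN] at h0
    exact h0
  have h1 : Tr g (⨅ x : Ω, rel ρ x x) := mam_refl g hg hρ fun x hx => (rC hx hx).2 (hrefl _)
  have h2 := mam_trans g hg (Ω := Ω) hρ fun x y z hx hy hz h3 h4 =>
    (rC hx hz).2 (htrans _ _ _ ((rC hx hy).1 h3) ((rC hy hz).1 h4))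
  have h3 : Tr g (cccV Set.univ (rel (Ω := Ω) ρ)) := by
    refine mam_ccc g hg hρ fun A hA h4 => ?_
    obtain ⟨b, hb⟩ := hccc {x | x.1 ∈ g.val (setN A)} ⟨_, ⟨_, hA, rfl⟩, fun x => Iff.rfl⟩ (by
      rintro x hx y hy hxy ⟨z, hz1, hz2⟩
      obtain ⟨x', hx', rfl⟩ := mam_surj g x
      obtain ⟨y', hy', rfl⟩ := mam_surj g y
      obtain ⟨z', hz', rfl⟩ := mam_surj g z
      refine h4 x' y' z' hx' hy' hz' ?_ ((rS hA hx').2 hx) ((rS hA hy').2 hy) ((rC hz' hx').2 hz1)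
        ((rC hz' hy').2 hz2)
      rintro rfl
      exact hxy rfl)
    obtain ⟨b', hb', rfl⟩ := mam_surj g b
    refine ⟨b', hb', fun x hx h5 => ?_⟩
    exact (val_on_mem g hx hb').1 (hb (mam_e g hx) ((rS hA hx).1 h5))
  have h4 : Tr g (denV (rel (Ω := Ω) ρ) (rel δ)) := by
    refine mam_den g hg hρ hδ fun a x ha hx => ?_
    obtain ⟨y, h5, h6⟩ := hden (mam_e g ha) (mam_e g hx)
    obtain ⟨y', hy', rfl⟩ := mam_surj g y
    exact ⟨y', hy', (rC hy' hx).2 h5, (rD ha hy').2 h6⟩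
  have h5 : Tr g (⨆ G : Ω → RO P, filtV (rel ρ) (rel δ) G) :=
    tr_mono g (hMA (rel ρ) (rel δ))
      ((tr_inf g).2 ⟨(tr_inf g).2 ⟨(tr_inf g).2 ⟨h1, h2⟩, h3⟩, h4⟩)
  obtain ⟨G, hG, h6⟩ := exists_fil g hg hρ hδ h5
  rw [filtV, tr_inf, tr_inf] at h6
  obtain ⟨⟨h7, h8⟩, h9⟩ := h6
  refine ⟨{x | x.1 ∈ g.val (setN G)}, ⟨_, ⟨_, hG, rfl⟩, fun x => Iff.rfl⟩, ?_, ?_, ?_⟩
  · intro x hx y hxy
    obtain ⟨x', hx', rfl⟩ := mam_surj g x
    obtain ⟨y', hy', rfl⟩ := mam_surj g y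
    exact (rS hG hy').1 (mam_himp g (mam_iInf g (mam_iInf g h7 x') y')
      ((tr_inf g).2 ⟨(rS hG hx').2 hx, (rC hx' hy').2 hxy⟩))
  · intro x hx y hy
    obtain ⟨x', hx', rfl⟩ := mam_surj g x
    obtain ⟨y', hy', rfl⟩ := mam_surj g y
    have h10 := mam_himp g (mam_iInf g (mam_iInf g h8 x') y')
      ((tr_inf g).2 ⟨(rS hG hx').2 hx, (rS hG hy').2 hy⟩)
    have h11 : Tr g (⨆ z : Ω, fam .dir (asg [ρ, setN G, on x', on y']) z) := by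
      refine tr_mono g (iSup_mono fun z => ?_) h10
      exact inf_le_inf (le_of_eq (st_setN G z).symm) le_rfl
    obtain ⟨z, hz, h12⟩ := tr_fam g hg (Ω := Ω) .dir [ρ, setN G, on x', on y']
      (by simp [hρ, hG, hx', hy']) h11
    change Tr g (st (setN G) z ⊓ (rel ρ z x' ⊓ rel ρ z y')) at h12
    rw [tr_inf, tr_inf, st_setN] at h12
    exact ⟨mam_e g hz, (rS hG hz).1 h12.1, (rC hz hx').1 h12.2.1, (rC hz hy').1 h12.2.2⟩
  · intro a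
    obtain ⟨a', ha', rfl⟩ := mam_surj g a
    have h10 := mam_iInf g h9 a'
    have h11 : Tr g (⨆ x : Ω, fam .meet (asg [setN G, δ, on a']) x) := by
      refine tr_mono g (iSup_mono fun z => ?_) h10
      exact inf_le_inf (le_of_eq (st_setN G z).symm) le_rfl
    obtain ⟨x, hx, h12⟩ := tr_fam g hg (Ω := Ω) .meet [setN G, δ, on a']
      (by simp [hδ, hG, ha']) h11
    change Tr g (st (setN G) x ⊓ rel δ a' x) at h12
    rw [tr_inf, st_setN] at h12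
    exact ⟨mam_e g hx, (rS hG hx).1 h12.1, (rD ha' hx).1 h12.2⟩

end Pool.Agent.Helper52.MA
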