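import Pool.Agent.Helper52.MA.Poset
import Pool.Agent.Helper52.MA.MAM
import Pool.Agent.Helper46.MA.NoColl
import Pool.Agent.Helper90.MA.OmT
import Pool.Agent.Helper51.MA.LS
import Pool.Agent.Helper82.MA.Om
import Pool.Agent.Helper32.HB.Cho
import Pool.Agent.Helper33.QB.Sent

/-!
# A countable transitive model of ZFC and Martin's Axiom
-/

set_option autoImplicit false
set_option linter.unusedSectionVars false

namespace Pool.Agent.Helper52.MA

open Set Pool.Agent.Helper33.HM Pool.Agent.Helper33.HMG Pool.Agent.Helper32.HB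
open Pool.Agent.Helper33.QB (OrdT)

/-- Countable subsets of `ω₁` are bounded. -/
theorem main_bdd (s : Set (Ordinal.omega.{0} 1).ToType) (hs : s.Countable) :
    ∃ b, ∀ x ∈ s, x < b := by
  by_contra hc
  push Not at hc
  have hu : ¬ Countable (Ordinal.omega.{0} 1).ToType := by
    rw [← Cardinal.mk_le_aleph0_iff, omT_card, not_le]
    exact Cardinal.aleph0_lt_aleph_one
  apply hu
  rw [← Set.countable_univ_iff]
  have h1 : (⋃ x ∈ s, Iic x).Countable := by
    refine hs.biUnion fun x _ => ?_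
    rw [← Iio_insert]
    exact (omT_Iio x).insert x
  refine h1.mono ?_
  intro b _
  obtain ⟨x, hx, hbx⟩ := hc b
  exact mem_iUnion₂.2 ⟨x, hx, hbx⟩

theorem main_unc : ¬ Countable (Ordinal.omega.{0} 1).ToType := by
  rw [← Cardinal.mk_le_aleph0_iff, omT_card, not_le]
  exact Cardinal.aleph0_lt_aleph_one

/-- Martin's Axiom for `ℵ₁` dense sets, from Martin's Axiom for preorders on `ω₁`. -/
theorem ma1_of_omega1 (h : MASentence (Ordinal.omega.{0} 1).ToType (fun x y => x < y)
    Set.univ Set.univ) : MA1 :=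
  ma1_of_sentence (Ordinal.omega.{0} 1).ToType main_bdd omT_Iio omT_card h

/-- There is a countable transitive model of ZFC and Martin's Axiom for `ℵ₁` dense sets in which the
given ordinal `α < ω₁` is a countable ordinal. -/
theorem exists_ma_model_ordinal (α : Ordinal.{0}) (hα : α < Ordinal.omega 1) :
    ∃ M : Set ZFSet.{0}, M.Countable ∧ IsTransModelZFC M ∧ ∃ w ∈ M, IsOmega1 M w ∧
      (∃ a : El w, OrdT (fun x y : El w => x.1 ∈ y.1) a α) ∧
      MASentence (El w) (fun x y => x.1 ∈ y.1) (setsM M w) (relsM M w) := by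
  classical
  let Ω := (Ordinal.omega.{0} 1).ToType
  obtain ⟨P, iP, iT, hc, hMA⟩ := exists_poset Ω main_bdd omT_Iio
  let a0 : Ω := Ordinal.ToType.mk ⟨α, hα⟩
  have hcnt : Countable {x : Ω // x ≤ a0} := by
    have h1 : (Iic a0).Countable := by
      rw [← Iio_insert]
      exact (omT_Iio a0).insert a0
    exact h1.to_subtype
  obtain ⟨g⟩ := exists_gen (P := P) (R := RQ ⊕ {x : Ω // x ≤ a0})
    (fun r => Sum.elim (WQ Ω) (fun x _ _ y => y = on x.1) r)
  have hg : Meets Ω g := fun r t ht => g.req (Sum.inl r) t ht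
  have hon : ∀ x : Ω, x ≤ a0 → on x ∈ g.N := by
    intro x hx
    obtain ⟨k, ⟨y, hy, h⟩ | h⟩ := g.req (Sum.inr ⟨x, hx⟩) [] (by simp)
    · have h' : y = on x := h
      rw [← h']; exact hy
    · exact absurd rfl (h _ le_rfl (on x))
  refine ⟨g.M, g.countable_M, zfc_of_ch g (fun τ hτ => chN_mem g hg hτ), g.val (wN Ω),
    ⟨_, wN_mem g hg, rfl⟩, isOmega1 g hg omT_Iio (noColl_of_ccc hc main_unc), ?_,
    ma_sentence g hg hMA⟩
  have hch : ∀ z : El (g.val (wN Ω)), ∃ x : Ω, on x ∈ g.N ∧ g.val (on x) = z.1 :=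
    fun z => (mem_val_wN g).1 z.2
  choose c hc1 hc2 using hch
  have hce : ∀ {x : Ω} (hx : on x ∈ g.N), c (mam_e g hx) = x := fun {x} hx =>
    val_on_inj g (hc1 _) hx (hc2 _)
  have hlt : ∀ (y z : El (g.val (wN Ω))), y.1 ∈ z.1 ↔ c y < c z := fun y z => by
    rw [← val_on_mem g (hc1 y) (hc1 z), hc2, hc2]
  refine ⟨mam_e g (hon a0 le_rfl), fun z => ((Ordinal.ToType.mk (o := Ordinal.omega.{0} 1)).symm (c z)).1,
    ⟨?_, ?_, ?_⟩, ?_⟩
  · intro z hz
    have h1 : c z < a0 := by
      have h2 := (hlt z (mam_e g (hon a0 le_rfl))).1 hz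
      rwa [hce] at h2
    have h2 : (Ordinal.ToType.mk (o := Ordinal.omega.{0} 1)).symm (c z) < ⟨α, hα⟩ := by
      rw [OrderIso.symm_apply_lt]
      exact h1
    exact h2
  · intro y _ z _ hyz
    have h1 : c y = c z := (Ordinal.ToType.mk (o := Ordinal.omega.{0} 1)).symm.injective (Subtype.ext hyz)
    have h2 : y.1 = z.1 := by rw [← hc2 y, ← hc2 z, h1]
    exact Subtype.ext h2
  · intro β hβ
    have hβ' : β < Ordinal.omega 1 := lt_trans hβ hα
    have h1 : (Ordinal.ToType.mk ⟨β, hβ'⟩ : Ω) < a0 := by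
      rw [OrderIso.lt_iff_lt]
      exact hβ
    refine ⟨mam_e g (hon _ h1.le), ?_, ?_⟩
    · exact (val_on_mem g (hon _ h1.le) (hon a0 le_rfl)).2 h1
    · change ((Ordinal.ToType.mk (o := Ordinal.omega.{0} 1)).symm (c (mam_e g (hon _ h1.le)))).1 = β
      rw [hce, OrderIso.symm_apply_apply]
  · intro y z _ _
    exact (hlt y z).trans
      ((Ordinal.ToType.mk (o := Ordinal.omega.{0} 1)).symm.lt_iff_lt (x := c y) (y := c z)).symm

/-- There is a countable transitive model of ZFC and Martin's Axiom for `ℵ₁` dense sets. -/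
theorem exists_ma_model : ∃ M : Set ZFSet.{0}, M.Countable ∧ IsTransModelZFC M ∧ MAModel M := by
  obtain ⟨M, h1, h2, w, hw, h3, -, h4⟩ := exists_ma_model_ordinal 0 (Ordinal.omega_pos 1)
  exact ⟨M, h1, h2, w, hw, h3, h4⟩

end Pool.Agent.Helper52.MA
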