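import Pool.Agent.Helper90.MA.OmT
import Pool.Agent.Helper52.MA.CHM
import Pool.Agent.Helper32.HB.Cho

/-!
# A countable transitive model of ZFC and the Continuum Hypothesis
-/

set_option autoImplicit false
set_option linter.unusedSectionVars false

namespace Pool.Agent.Helper52.MA

open Set Pool.Agent.Helper33.HM Pool.Agent.Helper33.HMG Pool.Agent.Helper32.HB

/-- There is a countable transitive model of ZFC and the Continuum Hypothesis. -/
theorem exists_ch_model : ∃ M : Set ZFSet.{0}, M.Countable ∧ IsTransModelZFC M ∧ CHModel M := by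
  obtain ⟨Ω, iL, iW, hb, hI, hcard, hu⟩ := exists_Omega
  obtain ⟨g⟩ := exists_gen (P := PH Ω) (R := RQ ⊕ RH)
    (fun r => Sum.elim (WQ Ω) (WH Ω) r)
  have hg : Meets Ω g := fun r t ht => g.req (Sum.inl r) t ht
  exact ⟨g.M, g.countable_M, zfc_of_ch g (fun τ hτ => chN_mem g hg hτ),
    ch_model g hg (fun r t ht => g.req (Sum.inr r) t ht) hI hu⟩

end Pool.Agent.Helper52.MA
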