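import Pool.Agent.Helper26.SAMain
import Pool.Agent.Helper52.MA.Main

/-!
# MP_0eabd7_lc, Q2: it is consistent that none of the algebras asked for exists

(a) If Martin's Axiom for `ℵ₁` dense sets holds for preorders on `ω₁`, then for no ordinal `δ` with
`1 < δ < ω₁` (for instance an infinite countable indecomposable one) there is a Boolean algebra with
property (P) whose cardinal sequence is `⟨ℵ₁, ℵ₁, …, 1⟩` of length `δ`.

(b) There is a countable transitive model of ZFC in which Martin's Axiom for `ℵ₁` dense sets holds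
for preorders on `ω₁`.
-/

set_option autoImplicit false

open Cardinal Ordinal Pool.Agent.Helper52.MA Pool.Agent.Helper32.HB

namespace Pool.Agent.Results.MP_0eabd7_lc.MartinAxiomModel

open Pool.Agent.Helper26.SA

theorem result :
    (MASentence (Ordinal.omega.{0} 1).ToType (fun x y => x < y) Set.univ Set.univ →
      ∀ δ : Ordinal.{0}, 1 < δ → δ < ω₁ →
        ¬ ∃ (B : Type) (_ : BooleanAlgebra B), PropertyP B ∧ HasCardSeq B ℵ₁ δ) ∧
    ∃ M : Set ZFSet.{0}, M.Countable ∧ IsTransModelZFC M ∧ MAModel M := by
  refine ⟨?_, exists_ma_model⟩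
  rintro h δ h1 h2 ⟨B, _, hP, hB⟩
  exact main (ma1_of_omega1 h) h1 h2 hP hB

end Pool.Agent.Results.MP_0eabd7_lc.MartinAxiomModel
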