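import Pool.Agent.Helper52.MA.Defs

/-!
# The conditions form a preorder
-/

set_option autoImplicit false
set_option linter.unusedSectionVars false

namespace Pool.Agent.Helper52.MA

open Set Pool.Agent.Helper33.HM

universe u

namespace Cond

variable {I : Type u} [LinearOrder I] {Ω : Type}

theorem lt_mono {p : Cond I Ω} {i j : I} (h : i ≤ j) (hp : p.lt i) : p.lt j :=
  fun k hk => lt_of_lt_of_le (hp k hk) h

theorem res_f (p : Cond I Ω) (i j : I) : (p.res i).f j = if j < i then p.f j else none := rfl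

theorem res_f_lt (p : Cond I Ω) {i j : I} (h : j < i) : (p.res i).f j = p.f j := if_pos h

theorem res_lt (p : Cond I Ω) (i : I) : (p.res i).lt i := by
  intro j hj
  by_contra h
  exact hj (if_neg h)

theorem res_res (p : Cond I Ω) (i j : I) : (p.res i).res j = p.res (min i j) := by
  apply Cond.ext
  funext k
  simp only [res_f]
  by_cases h1 : k < j <;> by_cases h2 : k < i <;> simp [h1, h2]

theorem res_res_le (p : Cond I Ω) {i j : I} (h : j ≤ i) : (p.res i).res j = p.res j := by
  rw [res_res, min_eq_right h]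

theorem res_res_ge (p : Cond I Ω) {i j : I} (h : i ≤ j) : (p.res i).res j = p.res i := by
  rw [res_res, min_eq_left h]

theorem res_of_lt {p : Cond I Ω} {i : I} (h : p.lt i) : p.res i = p := by
  apply Cond.ext
  funext k
  rw [res_f]
  split
  · rfl
  · next hk =>
    by_contra hne
    exact hk (h k (fun h0 => hne h0.symm))

theorem res_lt_of_lt {p : Cond I Ω} {i j : I} (h : p.lt j) : (p.res i).lt j := by
  intro k hk
  apply h k
  intro h0
  apply hk
  rw [res_f, h0]
  simp

theorem glue_f (i : I) (q p : Cond I Ω) (j : I) :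
    (glue i q p).f j = if j < i then q.f j else p.f j := rfl

theorem glue_res (i : I) {q : Cond I Ω} (hq : q.lt i) (p : Cond I Ω) : (glue i q p).res i = q := by
  apply Cond.ext
  funext k
  rw [res_f, glue_f]
  split
  · rfl
  · next hk =>
    by_contra hne
    exact hk (hq k (fun h0 => hne h0.symm))

theorem glue_res_le (i : I) (q p : Cond I Ω) {j : I} (h : j ≤ i) :
    (glue i q p).res j = q.res j := by
  apply Cond.ext
  funext k
  rw [res_f, res_f, glue_f]
  by_cases hk : k < j
  · rw [if_pos hk, if_pos hk, if_pos (hk.trans_le h)]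
  · rw [if_neg hk, if_neg hk]

theorem put_f (p : Cond I Ω) (i : I) (x : Ω) (j : I) :
    (put p i x).f j = if j = i then some x else p.f j := rfl

theorem put_res (p : Cond I Ω) (i : I) (x : Ω) {j : I} (h : j ≤ i) :
    (put p i x).res j = p.res j := by
  apply Cond.ext
  funext k
  rw [res_f, res_f, put_f]
  by_cases hk : k < j
  · rw [if_pos hk, if_pos hk, if_neg (hk.trans_le h).ne]
  · rw [if_neg hk, if_neg hk]

end Cond

section Raw

variable {I : Type u} [LinearOrder I] {Ω : Type}

theorem leR_congr {R R' : I → Ω → Ω → Set (Cond I Ω)} {i : I}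
    (h : ∀ j, j < i → ∀ x y, R j x y = R' j x y) (p : Cond I Ω) {q : Cond I Ω} (hq : q.lt i) :
    leR R p q ↔ leR R' p q := by
  constructor
  · intro h1 j x hj
    obtain ⟨y, hy, hy'⟩ := h1 j x hj
    refine ⟨y, hy, ?_⟩
    rwa [← h j (hq j (by rw [hj]; simp))]
  · intro h1 j x hj
    obtain ⟨y, hy, hy'⟩ := h1 j x hj
    refine ⟨y, hy, ?_⟩
    rwa [h j (hq j (by rw [hj]; simp))]

variable [LinearOrder Ω]

theorem hit_congr {i : I} {le le' : Cond I Ω → Cond I Ω → Prop}
    (h : ∀ p q : Cond I Ω, q.lt i → (le p q ↔ le' p q)) {X : Set (Cond I Ω)} {p : Cond I Ω}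
    (hp : p.lt i) : hit i le X p ↔ hit i le' X p := by
  constructor
  · intro h1 q hq hqp
    obtain ⟨r, hr, hrq, a, ha, hai, hra⟩ := h1 q hq ((h _ _ hp).2 hqp)
    exact ⟨r, hr, (h _ _ hq).1 hrq, a, ha, hai, (h _ _ hai).1 hra⟩
  · intro h1 q hq hqp
    obtain ⟨r, hr, hrq, a, ha, hai, hra⟩ := h1 q hq ((h _ _ hp).1 hqp)
    exact ⟨r, hr, (h _ _ hq).2 hrq, a, ha, hai, (h _ _ hai).2 hra⟩

theorem IsOk_congr_aux {i : I} {le le' : Cond I Ω → Cond I Ω → Prop}
    (h : ∀ p q : Cond I Ω, q.lt i → (le p q ↔ le' p q)) {C : Ω → Ω → Set (Cond I Ω)}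
    {p : Cond I Ω} (hp : p.lt i) (hok : IsOk i le C p) : IsOk i le' C p where
  refl x := (hit_congr h hp).1 (hok.refl x)
  trans x y z q hq hqp h1 h2 := (hit_congr h hq).1 (hok.trans x y z q hq ((h _ _ hp).2 hqp)
    ((hit_congr h hq).2 h1) ((hit_congr h hq).2 h2))
  ccc A q hq hqp hA := by
    obtain ⟨r, hr, hrq, b, hb⟩ := hok.ccc A q hq ((h _ _ hp).2 hqp) (by
      intro x y hxy r hr hrq h1 h2 z s hs hsr h3 h4
      exact hA x y hxy r hr ((h _ _ hq).1 hrq) ((hit_congr h hr).1 h1) ((hit_congr h hr).1 h2) z s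
        hs ((h _ _ hr).1 hsr) ((hit_congr h hs).1 h3) ((hit_congr h hs).1 h4))
    refine ⟨r, hr, (h _ _ hq).1 hrq, b, ?_⟩
    intro x hx s hs hsr h1
    exact hb x hx s hs ((h _ _ hr).2 hsr) ((hit_congr h hs).2 h1)

theorem IsOk_congr {i : I} {le le' : Cond I Ω → Cond I Ω → Prop}
    (h : ∀ p q : Cond I Ω, q.lt i → (le p q ↔ le' p q)) {C : Ω → Ω → Set (Cond I Ω)}
    {p : Cond I Ω} (hp : p.lt i) : IsOk i le C p ↔ IsOk i le' C p :=
  ⟨IsOk_congr_aux h hp, IsOk_congr_aux (fun p q hq => (h p q hq).symm) hp⟩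

theorem step_congr {i : I} {le le' : Cond I Ω → Cond I Ω → Prop}
    (h : ∀ p q : Cond I Ω, q.lt i → (le p q ↔ le' p q)) {C : Ω → Ω → Set (Cond I Ω)} (x y : Ω) :
    step i le C x y = step i le' C x y := by
  ext p
  constructor
  · rintro ⟨hp, h1⟩
    exact ⟨hp, fun q hq hqp hok => (hit_congr h hq).1
      (h1 q hq ((h _ _ hp).2 hqp) ((IsOk_congr h hq).2 hok))⟩
  · rintro ⟨hp, h1⟩
    exact ⟨hp, fun q hq hqp hok => (hit_congr h hq).2
      (h1 q hq ((h _ _ hp).1 hqp) ((IsOk_congr h hq).1 hok))⟩

variable [WellFoundedLT I] (code : I → Ω → Ω → Set (Cond I Ω))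

/-- The recursion equation. -/
theorem R_eq (i : I) (x y : Ω) : R code i x y = step i (leR (R code)) (code i) x y := by
  have h1 : R code i x y =
      step i (leR fun j x y => {p | ∀ _ : j < i, p ∈ R code j x y}) (code i) x y := by
    conv_lhs => rw [R, WellFounded.fix_eq]
    rfl
  rw [h1]
  apply step_congr
  intro p q hq
  apply leR_congr _ p hq
  intro j hj x y
  ext r
  simp [hj]

/-- The properties of the relation at the place `i`. -/
structure Fine (i : I) : Prop where
  refl : ∀ x (p : Cond I Ω), p.lt i → p ∈ R code i x x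
  trans : ∀ x y z (p : Cond I Ω), p ∈ R code i x y → p ∈ R code i y z → p ∈ R code i x z
  mono : ∀ x y (p q : Cond I Ω), p ∈ R code i x y → q.lt i → leR (R code) q p → q ∈ R code i x y

variable {code}

theorem leR_res {p q : Cond I Ω} (h : leR (R code) p q) (i : I) :
    leR (R code) (p.res i) (q.res i) := by
  intro j x hj
  rw [Cond.res_f] at hj
  by_cases hji : j < i
  · rw [if_pos hji] at hj
    obtain ⟨y, hy, hy'⟩ := h j x hj
    refine ⟨y, ?_, ?_⟩
    · rw [Cond.res_f, if_pos hji, hy]
    · rwa [Cond.res_res_le _ hji.le]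
  · rw [if_neg hji] at hj
    exact absurd hj (by simp)

theorem leR_refl_of {i : I} (h : ∀ j, j < i → Fine code j) {p : Cond I Ω} (hp : p.lt i) :
    leR (R code) p p := by
  intro j x hj
  exact ⟨x, hj, (h j (hp j (by rw [hj]; simp))).refl x _ (Cond.res_lt _ _)⟩

theorem leR_trans_of {i : I} (h : ∀ j, j < i → Fine code j) {p q r : Cond I Ω} (hr : r.lt i)
    (h1 : leR (R code) p q) (h2 : leR (R code) q r) : leR (R code) p r := by
  intro j x hj
  obtain ⟨y, hy, hy'⟩ := h2 j x hj
  obtain ⟨z, hz, hz'⟩ := h1 j y hy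
  have hf := h j (hr j (by rw [hj]; simp))
  exact ⟨z, hz, hf.trans _ _ _ _ hz' (hf.mono _ _ _ _ hy' (Cond.res_lt _ _) (leR_res h1 j))⟩

variable (code) in
theorem fine (i : I) : Fine code i := by
  induction i using WellFoundedLT.induction with
  | ind i ih =>
    have hmono : ∀ (X : Set (Cond I Ω)) (p q : Cond I Ω), p.lt i → hit i (leR (R code)) X p →
        leR (R code) q p → hit i (leR (R code)) X q := by
      intro X p q hp h hqp r hr hrq
      exact h r hr (leR_trans_of ih hp hrq hqp)
    refine ⟨?_, ?_, ?_⟩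
    · intro x p hp
      rw [R_eq]
      exact ⟨hp, fun q _ _ hok => hok.refl x⟩
    · intro x y z p h1 h2
      rw [R_eq] at *
      refine ⟨h1.1, fun q hq hqp hok => ?_⟩
      exact hok.trans x y z q hq (leR_refl_of ih hq) (h1.2 q hq hqp hok) (h2.2 q hq hqp hok)
    · intro x y p q h1 hq hqp
      rw [R_eq] at *
      exact ⟨hq, fun r hr hrq hok => h1.2 r hr (leR_trans_of ih h1.1 hrq hqp) hok⟩

end Raw

namespace PC

variable {I : Type u} [LinearOrder I] [WellFoundedLT I] {Ω : Type} [LinearOrder Ω]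
  {code : I → Ω → Ω → Set (Cond I Ω)}

instance : Preorder (PC code) where
  le p q := leR (R code) p.c q.c
  le_refl p := fun i x hi => ⟨x, hi, (fine code i).refl x _ (Cond.res_lt _ _)⟩
  le_trans p q r h1 h2 := by
    intro j x hj
    obtain ⟨y, hy, hy'⟩ := h2 j x hj
    obtain ⟨z, hz, hz'⟩ := h1 j y hy
    exact ⟨z, hz, (fine code j).trans _ _ _ _ hz'
      ((fine code j).mono _ _ _ _ hy' (Cond.res_lt _ _) (leR_res h1 j))⟩

theorem le_def {p q : PC code} : p ≤ q ↔ leR (R code) p.c q.c := Iff.rfl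

instance : OrderTop (PC code) where
  top := Cond.empty
  le_top p := by
    intro i x hi
    exact absurd (show (none : Option Ω) = some x from hi) (by simp)

/-- The restriction to the places less than `i`. -/
def res (p : PC code) (i : I) : PC code := mk (p.c.res i)

/-- The condition which agrees with `q` below `i` and with `p` from `i` on. -/
def glue (i : I) (q p : PC code) : PC code := mk (Cond.glue i q.c p.c)

/-- The condition `p` with the value `x` at `i`. -/
def put (p : PC code) (i : I) (x : Ω) : PC code := mk (Cond.put p.c i x)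

/-- All places of `p` are less than `i`. -/
def lt (p : PC code) (i : I) : Prop := p.c.lt i

theorem res_lt (p : PC code) (i : I) : (p.res i).lt i := Cond.res_lt _ _

theorem res_of_lt {p : PC code} {i : I} (h : p.lt i) : p.res i = p := Cond.res_of_lt h

theorem res_res_le (p : PC code) {i j : I} (h : j ≤ i) : (p.res i).res j = p.res j :=
  Cond.res_res_le _ h

theorem res_res_ge (p : PC code) {i j : I} (h : i ≤ j) : (p.res i).res j = p.res i :=
  Cond.res_res_ge _ h

theorem le_res (p : PC code) (i : I) : p ≤ p.res i := by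
  intro j x hj
  change (p.c.res i).f j = some x at hj
  rw [Cond.res_f] at hj
  by_cases hji : j < i
  · rw [if_pos hji] at hj
    exact ⟨x, hj, (fine code j).refl x _ (Cond.res_lt _ _)⟩
  · rw [if_neg hji] at hj
    exact absurd hj (by simp)

theorem res_mono {p q : PC code} (h : p ≤ q) (i : I) : p.res i ≤ q.res i := leR_res h i

theorem res_le_of_lt {p q : PC code} {i : I} (h : p ≤ q) (hq : q.lt i) : p.res i ≤ q := by
  have := res_mono h i
  rwa [res_of_lt hq] at this

theorem glue_res {i : I} {q : PC code} (hq : q.lt i) (p : PC code) : (glue i q p).res i = q :=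
  Cond.glue_res i hq _

theorem glue_le_left {i : I} {q : PC code} (hq : q.lt i) (p : PC code) : glue i q p ≤ q := by
  have := le_res (glue i q p) i
  rwa [glue_res hq] at this

theorem glue_le_right {i : I} {q p : PC code} (h : q ≤ p.res i) : glue i q p ≤ p := by
  intro j x hj
  by_cases hji : j < i
  · obtain ⟨y, hy, hy'⟩ := h j x (by
      change (p.c.res i).f j = some x
      rw [Cond.res_f, if_pos hji]
      exact hj)
    refine ⟨y, ?_, ?_⟩
    · change (Cond.glue i q.c p.c).f j = some y
      rw [Cond.glue_f, if_pos hji]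
      exact hy
    · change (Cond.glue i q.c p.c).res j ∈ _
      rw [Cond.glue_res_le _ _ _ hji.le]
      exact hy'
  · refine ⟨x, ?_, (fine code j).refl x _ (Cond.res_lt _ _)⟩
    change (Cond.glue i q.c p.c).f j = some x
    rw [Cond.glue_f, if_neg hji]
    exact hj

end PC

end Pool.Agent.Helper52.MA
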