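import Pool.Agent.Helper23.MA.TwoStep
import Pool.Agent.Helper52.MA.Defs2
import Pool.Agent.Helper68.HM.Delta

set_option autoImplicit false
set_option linter.unusedSectionVars false

namespace Pool.Agent.Helper52.MA

open Set Pool.Agent.Helper33.HM Pool.Agent.Helper33.HMG Pool.Agent.Helper32.HB

universe u

variable {I : Type u} [LinearOrder I] [WellFoundedLT I] {Ω : Type} [LinearOrder Ω]
  {code : I → Ω → Ω → Set (Cond I Ω)}

/-- The restriction to the places `≤ j`. -/
def pcccCut (p : PC code) (j : I) : PC code :=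
  PC.mk ⟨fun k => if k ≤ j then p.c.f k else none, p.c.fin.subset fun k hk => by
    by_cases h : k ≤ j
    · simpa [h] using hk
    · simp [h] at hk⟩

/-- `r` up to `j`, and then `p` and `q`. -/
def pcccMerge (r p q : PC code) (j : I) : PC code :=
  PC.mk ⟨fun k => if k ≤ j then r.c.f k else (p.c.f k).orElse fun _ => q.c.f k,
    (r.c.fin.union (p.c.fin.union q.c.fin)).subset fun k hk => by
      by_cases h : k ≤ j
      · left; simpa [h] using hk
      · right
        have hk' : (p.c.f k).orElse (fun _ => q.c.f k) ≠ none := by simpa [h] using hk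
        by_cases hp : p.c.f k = none
        · right
          intro hq
          exact hk' (by rw [hp, hq]; rfl)
        · left; exact hp⟩

theorem pccc_le (r p q s : PC code) (j : I) (hr : r ≤ pcccCut s j)
    (hs : ∀ k, j < k → ∀ x, s.c.f k = some x → (pcccMerge r p q j).c.f k = some x) :
    pcccMerge r p q j ≤ s := by
  rw [PC.le_iff]
  intro k x hk
  by_cases hkj : k ≤ j
  · have h1 : (pcccCut s j).c.f k = some x := by
      change (if k ≤ j then s.c.f k else none) = some x
      rw [if_pos hkj]; exact hk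
    obtain ⟨y, hy, hyr⟩ := PC.le_iff.1 hr k x h1
    refine ⟨y, ?_, ?_⟩
    · change (if k ≤ j then r.c.f k else _) = some y
      rw [if_pos hkj]; exact hy
    · refine (twoStep_mem (Rv_mem k y x) ?_).2 hyr
      apply Cond.ext
      funext l
      change (if l < k then (if l ≤ j then r.c.f l else _) else none) = (if l < k then r.c.f l else none)
      by_cases h : l < k
      · rw [if_pos h, if_pos h, if_pos (h.le.trans hkj)]
      · rw [if_neg h, if_neg h]
  · refine ⟨x, hs k (not_le.1 hkj) x hk, ?_⟩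
    rw [Rv_refl]
    exact RO.mem_top _

theorem pccc_step (hb : ∀ s : Set Ω, s.Countable → ∃ b, ∀ x ∈ s, x < b)
    (hI : ∀ b : Ω, (Iio b).Countable) (A : Set (PC code))
    (hA : ∀ p ∈ A, ∀ q ∈ A, p ≠ q → ¬ ∃ r : PC code, r ≤ p ∧ r ≤ q)
    (h : ∀ p ∈ A, ∀ j, p.c.f j ≠ none → ∀ A : Set (PC code), (∀ p ∈ A, p.lt j) →
      (∀ p ∈ A, ∀ q ∈ A, p ≠ q → ¬ ∃ r : PC code, r ≤ p ∧ r ≤ q) → A.Countable) :
    A.Countable := by
  classical
  by_contra hcon
  obtain ⟨J, hJ, R, hR⟩ := Pool.Agent.Helper33.HM.Cond.exists_delta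
    (fun p : A => p.1.c.fin.toFinset) (by
      intro hc
      exact hcon (Set.countable_coe_iff.1 (Set.countable_univ_iff.1 hc)))
  have hmem : ∀ (p : A) (k : I), k ∈ p.1.c.fin.toFinset ↔ p.1.c.f k ≠ none := fun p k => by
    rw [Set.Finite.mem_toFinset]; rfl
  -- common values outside of the root are impossible
  have hroot : ∀ p ∈ J, ∀ q ∈ J, p ≠ q → ∀ k, p.1.c.f k ≠ none → q.1.c.f k ≠ none → k ∈ R := by
    intro p hp q hq hpq k h1 h2
    rw [← hR p hp q hq hpq]
    exact Finset.mem_inter.2 ⟨(hmem p k).2 h1, (hmem q k).2 h2⟩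
  have hJ2 : ∃ p ∈ J, ∃ q ∈ J, p ≠ q := by
    by_contra hc
    push Not at hc
    apply hJ
    rcases J.eq_empty_or_nonempty with h0 | ⟨a, ha⟩
    · rw [h0]; exact countable_empty
    · exact (countable_singleton a).mono fun x hx => hc x hx a ha
  rcases R.eq_empty_or_nonempty with hR0 | hRne
  · obtain ⟨p, hp, q, hq, hpq⟩ := hJ2
    refine hA p.1 p.2 q.1 q.2 (fun h => hpq (Subtype.ext h)) ?_
    let t : PC code := PC.mk ⟨fun k => (p.1.c.f k).orElse fun _ => q.1.c.f k,
      (p.1.c.fin.union q.1.c.fin).subset fun k hk => by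
        by_cases hp : p.1.c.f k = none
        · right
          intro hq
          exact hk (by rw [hp, hq]; rfl)
        · left; exact hp⟩
    refine ⟨t, ?_, ?_⟩
    · rw [PC.le_iff]
      intro k x hk
      refine ⟨x, ?_, by rw [Rv_refl]; exact RO.mem_top _⟩
      change (p.1.c.f k).orElse _ = some x
      rw [hk]; rfl
    · rw [PC.le_iff]
      intro k x hk
      refine ⟨x, ?_, by rw [Rv_refl]; exact RO.mem_top _⟩
      change (p.1.c.f k).orElse _ = some x
      have h1 : p.1.c.f k = none := by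
        by_contra h1
        have := hroot p hp q hq hpq k h1 (by rw [hk]; simp)
        rw [hR0] at this
        exact absurd this (Finset.notMem_empty _)
      rw [h1]; exact hk
  · set j := R.max' hRne with hj
    have hjR : j ∈ R := R.max'_mem hRne
    have hgt : ∀ k, j < k → k ∉ R := fun k hk hkR => absurd (R.le_max' k hkR) (not_le.2 hk)
    have hjA : ∀ p ∈ J, p.1.c.f j ≠ none := by
      intro p hp
      obtain ⟨q, hq, hpq⟩ : ∃ q ∈ J, p ≠ q := by
        by_contra hc
        push Not at hc
        apply hJ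
        exact (countable_singleton p).mono fun x hx => (hc x hx).symm
      have h1 := hR p hp q hq hpq
      rw [← h1] at hjR
      exact (hmem p j).1 (Finset.mem_inter.1 hjR).1
    -- two members with compatible restrictions
    have key : ∃ p ∈ J, ∃ q ∈ J, p ≠ q ∧ ∃ r : PC code, r ≤ pcccCut p.1 j ∧ r ≤ pcccCut q.1 j := by
      by_contra hc
      push Not at hc
      have hinj : ∀ p ∈ J, ∀ q ∈ J, pcccCut p.1 j = pcccCut q.1 j → p = q := by
        intro p hp q hq hpq
        by_contra hne
        exact hc p hp q hq hne (pcccCut p.1 j) le_rfl (by rw [hpq])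
      obtain ⟨p0, hp0, -⟩ := hJ2
      have h1 := ccc_succ hb hI j (h p0.1 p0.2 j (hjA p0 hp0))
        ((fun p : A => pcccCut p.1 j) '' J) (by
          rintro _ ⟨p, hp, rfl⟩ k hk
          by_contra hkj
          apply hk
          change (if k ≤ j then p.1.c.f k else none) = none
          rw [if_neg hkj]) (by
          rintro _ ⟨p, hp, rfl⟩ _ ⟨q, hq, rfl⟩ hpq ⟨r, hr1, hr2⟩
          exact hc p hp q hq (fun h => hpq (by rw [h])) r hr1 hr2)
      exact hJ (Set.countable_of_injective_of_countable_image (fun p hp q hq h => hinj p hp q hq h) h1)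
    obtain ⟨p, hp, q, hq, hpq, r, hr1, hr2⟩ := key
    refine hA p.1 p.2 q.1 q.2 (fun h => hpq (Subtype.ext h))
      ⟨pcccMerge r p.1 q.1 j, pccc_le _ _ _ _ _ hr1 ?_, pccc_le _ _ _ _ _ hr2 ?_⟩
    · intro k hk x hx
      change (if k ≤ j then _ else (p.1.c.f k).orElse _) = some x
      rw [if_neg (not_le.2 hk), hx]; rfl
    · intro k hk x hx
      change (if k ≤ j then _ else (p.1.c.f k).orElse _) = some x
      have h1 : p.1.c.f k = none := by
        by_contra h1
        exact hgt k hk (hroot p hp q hq hpq k h1 (by rw [hx]; simp))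
      rw [if_neg (not_le.2 hk), h1]; exact hx

theorem pccc_lt (hb : ∀ s : Set Ω, s.Countable → ∃ b, ∀ x ∈ s, x < b)
    (hI : ∀ b : Ω, (Iio b).Countable) (i : I) : ∀ A : Set (PC code), (∀ p ∈ A, p.lt i) →
      (∀ p ∈ A, ∀ q ∈ A, p ≠ q → ¬ ∃ r : PC code, r ≤ p ∧ r ≤ q) → A.Countable := by
  induction i using WellFoundedLT.induction with
  | ind i ih =>
    intro A hA hA'
    exact pccc_step hb hI A hA' fun p hp j hj => ih j (hA p hp j hj)

theorem pc_ccc (hb : ∀ s : Set Ω, s.Countable → ∃ b, ∀ x ∈ s, x < b)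
    (hI : ∀ b : Ω, (Iio b).Countable) : PCCC (PC code) :=
  fun A hA => pccc_step hb hI A hA fun _ _ j _ => pccc_lt hb hI j

end Pool.Agent.Helper52.MA
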