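import Pool.Agent.Helper63.MA.Gfil
import Pool.Agent.Helper52.MA.PCcc
import Pool.Agent.Helper85.MA.Bound
import Pool.Agent.Helper90.MA.Book

/-!
# MA-6: the iteration forces Martin's Axiom
-/

set_option autoImplicit false
set_option linter.unusedSectionVars false

namespace Pool.Agent.Helper52.MA

open Set Pool.Agent.Helper33.HM Pool.Agent.Helper33.HMG Pool.Agent.Helper32.HB

universe u

theorem cccV_anti {B : Type u} [CompleteBooleanAlgebra B] {Ω : Type} [LinearOrder Ω] {S T : Set B}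
    (h : S ⊆ T) (C : Ω → Ω → B) : cccV T C ≤ cccV S C :=
  le_iInf fun A => le_iInf fun hA => (iInf_le _ A).trans (iInf_le _ fun x => h (hA x))

theorem poset_Cv {Ω : Type} [LinearOrder Ω]
    {code : Ordinal.{0} → Ω → Ω → Set (Cond Ordinal.{0} Ω)} {β i : Ordinal.{0}} (hi : β ≤ i)
    {C : Ω → Ω → RO (PC code)} (hC : ∀ x y, C x y ∈ S β)
    (h : code i = fun x y => {p | p.lt β ∧ (PC.mk p : PC code) ∈ C x y}) :
    (Cv i : Ω → Ω → RO (PC code)) = C := by
  funext x y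
  rw [← gen_self (hC x y), Cv, h]
  congr 1
  ext a
  constructor
  · rintro ⟨⟨h1, h2⟩, -⟩
    exact ⟨⟨h1, h2⟩, h1⟩
  · rintro ⟨⟨h1, h2⟩, -⟩
    exact ⟨⟨h1, h2⟩, Cond.lt_mono hi h1⟩

theorem exists_poset (Ω : Type) [LinearOrder Ω]
    (hb : ∀ s : Set Ω, s.Countable → ∃ b, ∀ x ∈ s, x < b) (hI : ∀ b : Ω, (Iio b).Countable) :
    ∃ (P : Type 1) (_ : Preorder P) (_ : OrderTop P), PCCC P ∧
      ∀ C D : Ω → Ω → RO P,
        preV C ⊓ cccV Set.univ C ⊓ denV C D ≤ ⨆ G : Ω → RO P, filtV C D G := by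
  obtain ⟨code, hcode⟩ := exists_code Ω
  have hc : PCCC (PC code) := pc_ccc hb hI
  refine ⟨PC code, inferInstance, inferInstance, hc, fun C D => ?_⟩
  obtain ⟨β, hβ⟩ := exists_bound hc (ι := Bool × Ω × Ω)
    (fun z => if z.1 then C z.2.1 z.2.2 else D z.2.1 z.2.2)
  have hC : ∀ x y, C x y ∈ S β := fun x y => by simpa using hβ (true, x, y)
  have hD : ∀ x y, D x y ∈ S β := fun x y => by simpa using hβ (false, x, y)
  obtain ⟨i, hi, hci⟩ := hcode β (fun x y => {p | p.lt β ∧ (PC.mk p : PC code) ∈ C x y})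
    (fun x y p hp => hp.1)
  have hCi := poset_Cv hi hC hci
  have h1 := gen_filter (code := code) i D (fun a x => S_mono hi (hD a x))
  rw [okV, hCi] at h1
  refine le_trans ?_ (h1.trans (le_iSup (fun G => filtV C D G) _))
  exact inf_le_inf (inf_le_inf le_rfl (cccV_anti (subset_univ _) _)) le_rfl

end Pool.Agent.Helper52.MA
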