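import Pool.Agent.Helper52.MA.Order
import Pool.Agent.Helper33.HM.Basic

/-!
# The subalgebras and the values of the relations
-/

set_option autoImplicit false
set_option linter.unusedSectionVars false

namespace Pool.Agent.Helper52.MA

open Set Pool.Agent.Helper33.HM

universe u

variable {I : Type u} [LinearOrder I] [WellFoundedLT I] {Ω : Type} [LinearOrder Ω]
  {code : I → Ω → Ω → Set (Cond I Ω)}

/-- The elements of the algebra which depend only on the places below `i`. -/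
def S (i : I) : Set (RO (PC code)) := {U | ∀ p : PC code, p ∈ U ↔ p.res i ∈ U}

/-- The value of `x ≤ y` for the `i`-th name. -/
def Cv (i : I) (x y : Ω) : RO (PC code) := RO.gen {a : PC code | a.c ∈ code i x y ∧ a.lt i}

/-- The value of: the `i`-th name is a preorder with bounded antichains (in the extension by the
conditions of length `i`). -/
def okV (i : I) : RO (PC code) := preV (Cv i) ⊓ cccV (S i) (Cv i)

/-- The value of `x ≤ y` at the place `i`. -/
def Rv (i : I) (x y : Ω) : RO (PC code) := okV i ⇨ Cv i x y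

theorem mem_S_iff {i : I} {U : RO (PC code)} : U ∈ S i ↔ ∀ p ∈ U, p.res i ∈ U :=
  ⟨fun h p hp => (h p).1 hp, fun h p => ⟨h p, fun hp => RO.mem_lower (PC.le_res p i) hp⟩⟩

theorem S_mono {i j : I} (h : i ≤ j) : (S i : Set (RO (PC code))) ⊆ S j := by
  intro U hU
  rw [mem_S_iff]
  intro p hp
  have h1 := (hU p).1 hp
  rw [hU (p.res j), PC.res_res_le _ h]
  exact h1

theorem gen_mem_S {i : I} {X : Set (PC code)} (hX : ∀ a ∈ X, a.lt i) : RO.gen X ∈ S i := by
  rw [mem_S_iff]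
  intro p hp q hq
  have hq' : q.res i ≤ p.res i := PC.res_le_of_lt hq (PC.res_lt _ _)
  obtain ⟨r, hr, a, ha, hra⟩ := hp _ (PC.glue_le_right hq')
  have h1 : r.res i ≤ a := PC.res_le_of_lt hra (hX a ha)
  have h2 : r.res i ≤ q.res i := by
    have := PC.res_mono hr i
    rwa [PC.glue_res (PC.res_lt _ _)] at this
  exact ⟨_, PC.glue_le_right h2, a, ha, (PC.glue_le_left (PC.res_lt _ _) q).trans h1⟩

theorem S_isSub (i : I) : IsSub (S i : Set (RO (PC code))) := by
  refine ⟨?_, ?_⟩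
  · intro U hU
    rw [mem_S_iff]
    intro p hp q hq hqU
    have hq' : q.res i ≤ p.res i := PC.res_le_of_lt hq (PC.res_lt _ _)
    refine hp _ (PC.glue_le_right hq') ?_
    exact RO.mem_lower (PC.glue_le_left (PC.res_lt _ _) p) ((hU q).1 hqU)
  · intro t ht
    rw [mem_S_iff]
    intro p hp
    rw [RO.mem_sSup] at hp ⊢
    intro q hq
    have hq' : q.res i ≤ p.res i := PC.res_le_of_lt hq (PC.res_lt _ _)
    obtain ⟨r, hr, U, hU, hrU⟩ := hp _ (PC.glue_le_right hq')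
    have h1 : r.res i ∈ U := (ht hU r).1 hrU
    have h2 : r.res i ≤ q.res i := by
      have := PC.res_mono hr i
      rwa [PC.glue_res (PC.res_lt _ _)] at this
    exact ⟨_, PC.glue_le_right h2, U, hU,
      RO.mem_lower (PC.glue_le_left (PC.res_lt _ _) q) h1⟩

theorem Cv_mem (i : I) (x y : Ω) : (Cv i x y : RO (PC code)) ∈ S i :=
  gen_mem_S fun _ ha => ha.2

section Mem

variable {B : Type u} [CompleteBooleanAlgebra B] {T : Set B} (hT : IsSub T)
include hT

theorem preV_mem {C : Ω → Ω → B} (hC : ∀ x y, C x y ∈ T) : preV C ∈ T :=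
  hT.inf_mem (hT.iInf_mem fun _ => hC _ _) (hT.iInf_mem fun _ => hT.iInf_mem fun _ =>
    hT.iInf_mem fun _ => hT.himp_mem (hT.inf_mem (hC _ _) (hC _ _)) (hC _ _))

theorem incV_mem {C : Ω → Ω → B} (hC : ∀ x y, C x y ∈ T) (x y : Ω) : incV C x y ∈ T :=
  hT.iInf_mem fun _ => hT.compl_mem _ (hT.inf_mem (hC _ _) (hC _ _))

theorem antiV_mem {C : Ω → Ω → B} (hC : ∀ x y, C x y ∈ T) {A : Ω → B} (hA : ∀ x, A x ∈ T) :
    antiV C A ∈ T :=
  hT.iInf_mem fun _ => hT.iInf_mem fun _ => hT.iInf_mem fun _ =>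
    hT.himp_mem (hT.inf_mem (hA _) (hA _)) (incV_mem hT hC _ _)

theorem bddV_mem {A : Ω → B} (hA : ∀ x, A x ∈ T) : bddV A ∈ T :=
  hT.iSup_mem fun _ => hT.iInf_mem fun _ => hT.iInf_mem fun _ => hT.compl_mem _ (hA _)

theorem denV_mem {C D : Ω → Ω → B} (hC : ∀ x y, C x y ∈ T) (hD : ∀ x y, D x y ∈ T) :
    denV C D ∈ T :=
  hT.iInf_mem fun _ => hT.iInf_mem fun _ => hT.iSup_mem fun _ => hT.inf_mem (hC _ _) (hD _ _)

theorem cccV_mem {C : Ω → Ω → B} (hC : ∀ x y, C x y ∈ T) : cccV T C ∈ T :=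
  hT.iInf_mem fun _ => hT.iInf_mem fun hA => hT.himp_mem (antiV_mem hT hC hA) (bddV_mem hT hA)

end Mem

theorem okV_mem (i : I) : (okV i : RO (PC code)) ∈ S i :=
  (S_isSub i).inf_mem (preV_mem (S_isSub i) (Cv_mem i)) (cccV_mem (S_isSub i) (Cv_mem i))

theorem Rv_mem (i : I) (x y : Ω) : (Rv i x y : RO (PC code)) ∈ S i :=
  (S_isSub i).himp_mem (okV_mem i) (Cv_mem i x y)

/-! ### The order in terms of the values -/

theorem hit_iff {i : I} {X : Set (Cond I Ω)} {q : PC code} (hq : q.lt i) :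
    hit i (leR (R code)) X q.c ↔ q ∈ RO.gen {a : PC code | a.c ∈ X ∧ a.lt i} := by
  constructor
  · intro h q' hq'
    have h0 : q'.res i ≤ q := PC.res_le_of_lt hq' hq
    obtain ⟨r, hr, hrq, a, ha, hai, hra⟩ := h (q'.res i).c (PC.res_lt _ _) h0
    have h1 : PC.mk r ≤ q'.res i := hrq
    have h2 : (PC.mk (code := code) r).lt i := hr
    have h3 : PC.mk r ≤ PC.mk (code := code) a := hra
    exact ⟨_, PC.glue_le_right h1, PC.mk a, ⟨ha, hai⟩, (PC.glue_le_left h2 q').trans h3⟩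
  · intro h q' hq' hqq
    have h1 : PC.mk q' ≤ q := hqq
    obtain ⟨r, hr, a, ⟨ha, hai⟩, hra⟩ := h (PC.mk q') h1
    have h2 : r.res i ≤ PC.mk q' := PC.res_le_of_lt hr hq'
    have h3 : r.res i ≤ a := PC.res_le_of_lt hra hai
    exact ⟨(r.res i).c, PC.res_lt _ _, h2, a.c, ha, hai, h3⟩

theorem mem_res_iff {i : I} {U : RO (PC code)} (hU : U ∈ S i) {p : PC code} :
    p.res i ∈ U ↔ p ∈ U := (hU p).symm

/-- Elements of `S i` and sets of conditions of length `i`. -/
theorem gen_self {i : I} {U : RO (PC code)} (hU : U ∈ S i) :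
    RO.gen {a : PC code | a.c ∈ {b : Cond I Ω | b.lt i ∧ PC.mk b ∈ U} ∧ a.lt i} = U := by
  apply RO.ext'
  intro p
  constructor
  · intro hp
    apply RO.mem_reg
    intro q hq
    obtain ⟨r, hr, a, ⟨⟨_, ha⟩, _⟩, hra⟩ := hp q hq
    exact ⟨r, hr, RO.mem_lower hra ha⟩
  · intro hp q hq
    exact ⟨q, le_rfl, q.res i, ⟨⟨PC.res_lt _ _, (mem_res_iff hU).2 (RO.mem_lower hq hp)⟩,
      PC.res_lt _ _⟩, PC.le_res q i⟩

theorem mem_antiV {C : Ω → Ω → RO (PC code)} {A : Ω → RO (PC code)} {p : PC code} :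
    p ∈ antiV C A ↔ ∀ x y, x ≠ y → ∀ r, r ≤ p → r ∈ A x → r ∈ A y →
      ∀ z s, s ≤ r → s ∈ C z x → ¬ s ∈ C z y := by
  simp only [antiV, incV, RO.mem_iInf, RO.mem_himp, RO.mem_inf, RO.mem_compl]
  constructor
  · intro h x y hxy r hr h1 h2 z s hs h3 h4
    exact h x y hxy r hr ⟨h1, h2⟩ z s hs ⟨h3, h4⟩
  · intro h x y hxy r hr h1 z s hs h3
    exact h x y hxy r hr h1.1 h1.2 z s hs h3.1 h3.2

theorem mem_bddV {A : Ω → RO (PC code)} {p : PC code} :
    p ∈ bddV A ↔ ∀ q, q ≤ p → ∃ r, r ≤ q ∧ ∃ b, ∀ x, b ≤ x → ∀ s, s ≤ r → ¬ s ∈ A x := by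
  simp only [bddV, RO.mem_iSup, RO.mem_iInf, RO.mem_compl]

theorem mem_preV {C : Ω → Ω → RO (PC code)} {p : PC code} :
    p ∈ preV C ↔ (∀ x, p ∈ C x x) ∧
      ∀ x y z, ∀ q, q ≤ p → q ∈ C x y → q ∈ C y z → q ∈ C x z := by
  simp only [preV, RO.mem_iInf, RO.mem_himp, RO.mem_inf, and_imp]

theorem isOk_iff {i : I} {q : PC code} (hq : q.lt i) :
    IsOk i (leR (R code)) (code i) q.c ↔ q ∈ (okV i : RO (PC code)) := by
  have hC : ∀ x y, (Cv i x y : RO (PC code)) = RO.gen {a : PC code | a.c ∈ code i x y ∧ a.lt i} :=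
    fun _ _ => rfl
  have hmS : ∀ {U : RO (PC code)}, U ∈ S i → ∀ {p : PC code}, p.res i ∈ U ↔ p ∈ U :=
    fun {_} hU {_} => mem_res_iff hU
  constructor
  · intro h
    refine RO.mem_inf.2 ⟨mem_preV.2 ⟨fun x => (hit_iff hq).1 (h.refl x), ?_⟩, ?_⟩
    · intro x y z q' hq' h1 h2
      have h0 : q'.res i ≤ q := PC.res_le_of_lt hq' hq
      rw [← hmS (Cv_mem i _ _)] at h1 h2 ⊢
      exact (hit_iff (PC.res_lt _ _)).1 (h.trans x y z _ (PC.res_lt _ _) h0
        ((hit_iff (PC.res_lt _ _)).2 h1) ((hit_iff (PC.res_lt _ _)).2 h2))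
    · rw [cccV]
      simp only [RO.mem_iInf, RO.mem_himp]
      intro A hA q' hq' hanti
      rw [← mem_res_iff (bddV_mem (S_isSub i) hA), mem_bddV]
      intro q2 hq2
      have h0 : q2.res i ≤ q'.res i := PC.res_le_of_lt hq2 (PC.res_lt _ _)
      have hanti' : q'.res i ∈ antiV (Cv i) A :=
        (mem_res_iff (antiV_mem (S_isSub i) (Cv_mem i) hA)).2 hanti
      rw [mem_antiV] at hanti'
      have hgen := fun x => gen_self (hA x)
      obtain ⟨r, hr, hrq, b, hb⟩ := h.ccc (fun x => {b : Cond I Ω | b.lt i ∧ PC.mk b ∈ A x})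
        (q2.res i).c (PC.res_lt _ _) (show q2.res i ≤ q from
          h0.trans (PC.res_le_of_lt hq' hq)) (by
          intro x y hxy r hr hrq h1 h2 z s hs hsr h3 h4
          have h1' := (hit_iff (q := PC.mk r) hr).1 h1
          have h2' := (hit_iff (q := PC.mk r) hr).1 h2
          rw [hgen] at h1' h2'
          exact hanti' x y hxy (PC.mk r) (le_trans (show PC.mk r ≤ q2.res i from hrq) h0) h1' h2' z
            (PC.mk s) hsr ((hit_iff (q := PC.mk s) hs).1 h3) ((hit_iff (q := PC.mk s) hs).1 h4))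
      have hr' : PC.mk r ≤ q2.res i := hrq
      refine ⟨PC.glue i (PC.mk r) q2, PC.glue_le_right hr', b, ?_⟩
      intro x hx s hs hsA
      have h5 : s.res i ≤ PC.mk r :=
        PC.res_le_of_lt (hs.trans (PC.glue_le_left hr _)) hr
      refine hb x hx (s.res i).c (PC.res_lt _ _) h5 ((hit_iff (PC.res_lt _ _)).2 ?_)
      rw [hgen]
      exact (mem_res_iff (hA x)).2 hsA
  · intro h
    obtain ⟨h1, h2⟩ := RO.mem_inf.1 h
    rw [mem_preV] at h1
    rw [cccV] at h2
    simp only [RO.mem_iInf, RO.mem_himp] at h2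
    refine ⟨fun x => (hit_iff hq).2 (h1.1 x), ?_, ?_⟩
    · intro x y z q' hq' hqq h3 h4
      exact (hit_iff (q := PC.mk q') hq').2 (h1.2 x y z (PC.mk q') hqq
        ((hit_iff (q := PC.mk q') hq').1 h3) ((hit_iff (q := PC.mk q') hq').1 h4))
    · intro A q' hq' hqq hanti
      let A' : Ω → RO (PC code) := fun x => RO.gen {a : PC code | a.c ∈ A x ∧ a.lt i}
      have hA' : ∀ x, A' x ∈ S i := fun x => gen_mem_S fun _ ha => ha.2
      have h3 := h2 A' hA' (PC.mk q') hqq (by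
        rw [mem_antiV]
        intro x y hxy r hr h5 h6 z s hs h7 h8
        have hri : (r.res i) ≤ PC.mk q' := PC.res_le_of_lt hr hq'
        refine hanti x y hxy (r.res i).c (PC.res_lt _ _) hri
          ((hit_iff (PC.res_lt _ _)).2 ((mem_res_iff (hA' x)).2 h5))
          ((hit_iff (PC.res_lt _ _)).2 ((mem_res_iff (hA' y)).2 h6)) z (s.res i).c (PC.res_lt _ _)
          (show s.res i ≤ r.res i from PC.res_mono hs i)
          ((hit_iff (PC.res_lt _ _)).2 ((mem_res_iff (Cv_mem i _ _)).2 h7))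
          ((hit_iff (PC.res_lt _ _)).2 ((mem_res_iff (Cv_mem i _ _)).2 h8)))
      rw [mem_bddV] at h3
      obtain ⟨r, hr, b, hb⟩ := h3 (PC.mk q') le_rfl
      refine ⟨(r.res i).c, PC.res_lt _ _, PC.res_le_of_lt hr hq', b, ?_⟩
      intro x hx s hs hsr hhit
      have h5 : PC.mk s ≤ r.res i := hsr
      have h6 : PC.mk s ∈ A' x := (hit_iff (q := PC.mk s) hs).1 hhit
      exact hb x hx (PC.glue i (PC.mk s) r) (PC.glue_le_right h5)
        (RO.mem_lower (PC.glue_le_left hs r) h6)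

theorem R_iff {i : I} {x y : Ω} {p : PC code} (hp : p.lt i) :
    p.c ∈ R code i x y ↔ p ∈ (Rv i x y : RO (PC code)) := by
  rw [R_eq, Rv, RO.mem_himp]
  constructor
  · rintro ⟨_, h⟩ q hq hok
    rw [← mem_res_iff (okV_mem i)] at hok
    rw [← mem_res_iff (Cv_mem i x y)]
    have h0 : q.res i ≤ p := PC.res_le_of_lt hq hp
    exact (hit_iff (PC.res_lt _ _)).1 (h _ (PC.res_lt _ _) h0 ((isOk_iff (PC.res_lt _ _)).2 hok))
  · intro h
    refine ⟨hp, fun q hq hqp hok => ?_⟩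
    exact (hit_iff (q := PC.mk q) hq).2 (h (PC.mk q) hqp ((isOk_iff (q := PC.mk q) hq).1 hok))

/-- The order in terms of the values of the relations. -/
theorem PC.le_iff {p q : PC code} :
    p ≤ q ↔ ∀ i x, q.c.f i = some x → ∃ y, p.c.f i = some y ∧ p ∈ (Rv i y x : RO (PC code)) := by
  rw [PC.le_def, leR]
  refine forall_congr' fun i => forall_congr' fun x => forall_congr' fun _ =>
    exists_congr fun y => and_congr Iff.rfl ?_
  have h := R_iff (p := p.res i) (x := y) (y := x) (PC.res_lt p i)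
  rw [mem_res_iff (Rv_mem i y x)] at h
  exact h

theorem okV_le_preV (i : I) : (okV i : RO (PC code)) ≤ preV (Cv i) := inf_le_left

theorem Rv_refl (i : I) (x : Ω) : (Rv i x x : RO (PC code)) = ⊤ := by
  rw [Rv, himp_eq_top_iff]
  exact (okV_le_preV i).trans (inf_le_left.trans (iInf_le _ x))

theorem Rv_trans (i : I) (x y z : Ω) :
    (Rv i x y ⊓ Rv i y z : RO (PC code)) ≤ Rv i x z := by
  intro p hp
  rw [RO.mem_inf] at hp
  rw [Rv, RO.mem_himp]
  intro q hq hok
  have h := (mem_preV.1 (okV_le_preV i q hok)).2 x y z q le_rfl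
  exact h (RO.mem_himp.1 hp.1 q hq hok) (RO.mem_himp.1 hp.2 q hq hok)

end Pool.Agent.Helper52.MA
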